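import Mathlib

/-!
# Two groups of order 273 with the same subgroup lattices of all direct powers

`Gp b` is the semidirect product of the cyclic group of order `91` and the cyclic group of order
`3`, a generator of which acts as multiplication by `16` (for `b = false`) or `9` (for `b = true`).
These two groups are not isomorphic. A bijection `F b : Gp b → Gp (!b)`, which multiplies the first
component by a number depending on the second component, has the property that, applied to
each component, it maps the subgroups of the direct powers of `Gp b` onto subgroups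
of the direct powers of `Gp (!b)`.
-/

set_option autoImplicit false

namespace Pool.Agent.K3h61.Proj

/-- the character: the generator acts as `16` or `9` -/
def chi (b : Bool) (k : ZMod 3) : ZMod 91 := (bif b then 9 else 16) ^ k.val

/-- the multipliers -/
def c (b : Bool) (k : ZMod 3) : ZMod 91 :=
  if k = 0 then 1 else if (k = 1) = (b = false) then 43 else 36

/-- the coefficients which express the defect of `F` through the commutator -/
def r (b : Bool) (k l : ZMod 3) : ZMod 91 :=
  bif b then
    (if k = 0 then (if l = 0 then 0 else if l = 1 then 63 else 28)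
     else if k = 1 then (if l = 0 then 28 else if l = 1 then 77 else 28)
     else (if l = 0 then 63 else if l = 1 then 63 else 77))
  else
    (if k = 0 then (if l = 0 then 0 else if l = 1 then 28 else 63)
     else if k = 1 then (if l = 0 then 63 else if l = 1 then 77 else 63)
     else (if l = 0 then 28 else if l = 1 then 28 else 77))

lemma chi_zero (b : Bool) : chi b 0 = 1 := by revert b; decide

lemma chi_add : ∀ (b : Bool) (k l : ZMod 3), chi b (k + l) = chi b k * chi b l := by decide

lemma chi_neg_mul : ∀ (b : Bool) (k : ZMod 3), chi b (-k) * chi b k = 1 := by decide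

lemma chi_mul_neg : ∀ (b : Bool) (k : ZMod 3), chi b k * chi b (-k) = 1 := by decide

lemma c_mul_c : ∀ (b : Bool) (k : ZMod 3), c (!b) k * c b k = 1 := by decide

lemma c_zero (b : Bool) : c b 0 = 1 := by revert b; decide

lemma id1 : ∀ (b : Bool) (k l : ZMod 3),
    c (!b) (k + l) * c b k - 1 = - (r b k l * (chi b l - 1)) := by decide

lemma id2 : ∀ (b : Bool) (k l : ZMod 3),
    c (!b) (k + l) * (chi (!b) k * c b l) - chi b k = r b k l * (chi b k - 1) := by decide

lemma id3 : ∀ (b : Bool) (k : ZMod 3), c b (-k) * chi b (-k) = chi (!b) (-k) * c b k := by decide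

lemma proj_id : ∀ (b : Bool) (k a : ZMod 3),
    61 * (1 + chi b (-a) * chi b k + chi b (-a) * chi b (-a) * (chi b k * chi b k)) =
      if k = a then 1 else 0 := by decide

/-- the group -/
@[ext] structure Gp (b : Bool) where
  /-- the component in the cyclic group of order `91` -/
  n : ZMod 91
  /-- the component in the cyclic group of order `3` -/
  k : ZMod 3

namespace Gp

variable {b : Bool}

instance : Mul (Gp b) := ⟨fun g h => ⟨g.n + chi b g.k * h.n, g.k + h.k⟩⟩
instance : One (Gp b) := ⟨⟨0, 0⟩⟩
instance : Inv (Gp b) := ⟨fun g => ⟨-(chi b (-g.k) * g.n), -g.k⟩⟩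

@[simp] lemma mul_n (g h : Gp b) : (g * h).n = g.n + chi b g.k * h.n := rfl
@[simp] lemma mul_k (g h : Gp b) : (g * h).k = g.k + h.k := rfl
@[simp] lemma one_n : (1 : Gp b).n = 0 := rfl
@[simp] lemma one_k : (1 : Gp b).k = 0 := rfl
@[simp] lemma inv_n (g : Gp b) : (g⁻¹).n = -(chi b (-g.k) * g.n) := rfl
@[simp] lemma inv_k (g : Gp b) : (g⁻¹).k = -g.k := rfl

instance : Group (Gp b) :=
  Group.ofLeftAxioms
    (by
      intro x y z
      ext
      · simp only [mul_n, mul_k, chi_add]; ring
      · simp only [mul_k]; ring)
    (by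
      intro x
      ext
      · simp [chi_zero]
      · simp)
    (by
      intro x
      ext
      · simp
      · simp)

end Gp

/-- the bijection -/
def F (b : Bool) : Gp b ≃ Gp (!b) where
  toFun g := ⟨c b g.k * g.n, g.k⟩
  invFun g := ⟨c (!b) g.k * g.n, g.k⟩
  left_inv g := by
    ext
    · show c (!b) g.k * (c b g.k * g.n) = g.n
      rw [← mul_assoc, c_mul_c, one_mul]
    · rfl
  right_inv g := by
    ext
    · show c b g.k * (c (!b) g.k * g.n) = g.n
      have h := c_mul_c (!b) g.k
      rw [Bool.not_not] at h
      rw [← mul_assoc, h, one_mul]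
    · rfl

@[simp] lemma F_n (b : Bool) (g : Gp b) : (F b g).n = c b g.k * g.n := rfl
@[simp] lemma F_k (b : Bool) (g : Gp b) : (F b g).k = g.k := rfl
@[simp] lemma Fs_n (b : Bool) (g : Gp (!b)) : ((F b).symm g).n = c (!b) g.k * g.n := rfl
@[simp] lemma Fs_k (b : Bool) (g : Gp (!b)) : ((F b).symm g).k = g.k := rfl

section power

variable {ι : Type} {b : Bool}

/-- the element of the direct power with the given components in the cyclic group of order `91` -/
def el (b : Bool) (m : ι → ZMod 91) : ι → Gp b := fun i => ⟨m i, 0⟩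

lemma el_mul (m m' : ι → ZMod 91) : el b m * el b m' = el b (m + m') := by
  funext i
  ext
  · simp [el, chi_zero]
  · simp [el]

variable (X : Subgroup (ι → Gp b))

lemma el_nsmul {m : ι → ZMod 91} (hm : el b m ∈ X) (t : ℕ) : el b (t • m) ∈ X := by
  induction t with
  | zero =>
    rw [zero_smul]
    have : el b (0 : ι → ZMod 91) = 1 := by
      funext i; rfl
    rw [this]
    exact X.one_mem
  | succ t ih =>
    rw [succ_nsmul, ← el_mul]
    exact X.mul_mem ih hm

lemma el_smul {m : ι → ZMod 91} (hm : el b m ∈ X) (t : ZMod 91) :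
    el b (fun i => t * m i) ∈ X := by
  have h := el_nsmul X hm t.val
  have e : (t.val • m) = fun i => t * m i := by
    funext i
    simp
  rwa [e] at h

lemma el_add {m m' : ι → ZMod 91} (hm : el b m ∈ X) (hm' : el b m' ∈ X) :
    el b (fun i => m i + m' i) ∈ X := by
  have h := X.mul_mem hm hm'
  rwa [el_mul] at h

lemma el_act {m : ι → ZMod 91} (hm : el b m ∈ X) {g : ι → Gp b} (hg : g ∈ X) :
    el b (fun i => chi b (g i).k * m i) ∈ X := by
  have h := X.mul_mem (X.mul_mem hg hm) (X.inv_mem hg)
  have e : g * el b m * g⁻¹ = el b (fun i => chi b (g i).k * m i) := by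
    funext i
    ext
    · simp only [Pi.mul_apply, Pi.inv_apply, Gp.mul_n, Gp.mul_k, Gp.inv_n, el, add_zero]
      have := chi_mul_neg b (g i).k
      linear_combination (-(g i).n) * this
    · simp [el]
  rwa [e] at h

/-- the projection to the components with given second component is polynomial in the action -/
lemma el_proj {m : ι → ZMod 91} (hm : el b m ∈ X) {g : ι → Gp b} (hg : g ∈ X) (a : ZMod 3) :
    el b (fun i => if (g i).k = a then m i else 0) ∈ X := by
  have h1 := el_act X hm hg
  have h2 := el_act X h1 hg
  have h3 := el_smul X (el_add X (el_add X hm (el_smul X h1 (chi b (-a))))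
    (el_smul X h2 (chi b (-a) * chi b (-a)))) 61
  convert h3 using 2
  funext i
  have := proj_id b (g i).k a
  have e : (if (g i).k = a then m i else 0) = (if (g i).k = a then 1 else 0) * m i := by
    split_ifs <;> simp
  rw [e, ← this]
  ring

/-- multiplication of the components by numbers which depend on the second
components of two elements -/
lemma el_diag {m : ι → ZMod 91} (hm : el b m ∈ X) {g h : ι → Gp b} (hg : g ∈ X) (hh : h ∈ X)
    (ρ : ZMod 3 → ZMod 3 → ZMod 91) :
    el b (fun i => ρ (g i).k (h i).k * m i) ∈ X := by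
  have key : ∀ a a' : ZMod 3, el b (fun i => ρ a a' *
      (if (h i).k = a' then (if (g i).k = a then m i else 0) else 0)) ∈ X := fun a a' =>
    el_smul X (el_proj X (el_proj X hm hg a) hh a') _
  have H := el_add X (el_add X (el_add X (key 0 0) (key 0 1)) (el_add X (key 0 2) (key 1 0)))
    (el_add X (el_add X (key 1 1) (key 1 2)) (el_add X (key 2 0)
      (el_add X (key 2 1) (key 2 2))))
  convert H using 2
  funext i
  generalize (g i).k = x
  generalize (h i).k = y
  generalize m i = z
  have d01 : (0 : ZMod 3) ≠ 1 := by decide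
  have d02 : (0 : ZMod 3) ≠ 2 := by decide
  have d12 : (1 : ZMod 3) ≠ 2 := by decide
  have hx : x = 0 ∨ x = 1 ∨ x = 2 := by revert x; decide
  have hy : y = 0 ∨ y = 1 ∨ y = 2 := by revert y; decide
  rcases hx with rfl | rfl | rfl <;> rcases hy with rfl | rfl | rfl <;>
    simp [d01, d02, d12, d01.symm, d02.symm, d12.symm]

/-- the componentwise bijection of direct powers -/
def FF (ι : Type) (b : Bool) : (ι → Gp b) ≃ (ι → Gp (!b)) := Equiv.piCongrRight fun _ => F b

@[simp] lemma FF_apply (g : ι → Gp b) (i : ι) : FF ι b g i = F b (g i) := rfl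
@[simp] lemma FFs_apply (g : ι → Gp (!b)) (i : ι) : (FF ι b).symm g i = (F b).symm (g i) := rfl

/-- the image of a subgroup is a subgroup -/
def imageSub (X : Subgroup (ι → Gp b)) : Subgroup (ι → Gp (!b)) where
  carrier := {y | (FF ι b).symm y ∈ X}
  mul_mem' := by
    intro x y hx hy
    obtain ⟨g, rfl⟩ := (FF ι b).surjective x
    obtain ⟨h, rfl⟩ := (FF ι b).surjective y
    simp only [Set.mem_ofPred_eq, Equiv.symm_apply_apply] at hx hy ⊢
    -- the commutator
    have hw : el b (fun i => (chi b (g i).k - 1) * (h i).n - (chi b (h i).k - 1) * (g i).n) ∈ X := by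
      have h1 := X.mul_mem (X.mul_mem hx hy) (X.inv_mem (X.mul_mem hy hx))
      convert h1 using 1
      funext i
      ext
      · simp only [el, Pi.mul_apply, Pi.inv_apply, Gp.mul_n, Gp.mul_k, Gp.inv_n]
        have e1 := chi_mul_neg b ((g i).k + (h i).k)
        rw [add_comm (h i).k (g i).k]
        linear_combination ((h i).n + chi b (h i).k * (g i).n) * e1
      · simp only [el, Pi.mul_apply, Pi.inv_apply, Gp.mul_k, Gp.inv_k]
        ring
    have hz := el_diag X hw hx hy (r b)
    have h2 := X.mul_mem hz (X.mul_mem hx hy)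
    convert h2 using 1
    funext i
    ext
    · simp only [FFs_apply, Fs_n, Pi.mul_apply, FF_apply, Gp.mul_n, Gp.mul_k, F_n, F_k, el,
        chi_zero]
      have e1 := id1 b (g i).k (h i).k
      have e2 := id2 b (g i).k (h i).k
      linear_combination (g i).n * e1 + (h i).n * e2
    · simp [el]
  one_mem' := by
    have : (FF ι b).symm 1 = 1 := by
      funext i
      ext
      · simp
      · simp
    simp only [Set.mem_ofPred_eq, this]
    exact X.one_mem
  inv_mem' := by
    intro x hx
    obtain ⟨g, rfl⟩ := (FF ι b).surjective x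
    simp only [Set.mem_ofPred_eq, Equiv.symm_apply_apply] at hx ⊢
    have h1 := X.inv_mem hx
    have e : (FF ι b g)⁻¹ = FF ι b g⁻¹ := by
      funext i
      ext
      · simp only [Pi.inv_apply, FF_apply, Gp.inv_n, F_n, F_k, Gp.inv_k]
        have := id3 b (g i).k
        linear_combination (g i).n * this
      · simp
    rw [e, Equiv.symm_apply_apply]
    exact h1

lemma mem_imageSub (X : Subgroup (ι → Gp b)) (y : ι → Gp (!b)) :
    y ∈ imageSub X ↔ (FF ι b).symm y ∈ X := Iff.rfl

end power


/-- the isomorphism of the subgroup lattices of the direct powers -/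
def phi (ι : Type) : Subgroup (ι → Gp false) ≃o Subgroup (ι → Gp true) where
  toFun X := imageSub (b := false) X
  invFun Y := imageSub (b := true) Y
  left_inv X := by
    ext y
    show (FF ι false).symm ((FF ι true).symm y) ∈ X ↔ y ∈ X
    have : (FF ι false).symm ((FF ι true).symm y) = y :=
      (FF ι false).symm_apply_apply y
    rw [this]
  right_inv Y := by
    ext y
    show (FF ι true).symm ((FF ι false).symm y) ∈ Y ↔ y ∈ Y
    have : (FF ι true).symm ((FF ι false).symm y) = y :=
      (FF ι true).symm_apply_apply y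
    rw [this]
  map_rel_iff' := by
    intro X Y
    constructor
    · intro h x hx
      have h1 : FF ι false x ∈ imageSub (b := false) X := by
        rw [mem_imageSub, Equiv.symm_apply_apply]; exact hx
      have h2 := h h1
      rw [Equiv.coe_fn_mk, mem_imageSub, Equiv.symm_apply_apply] at h2
      exact h2
    · intro h y hy
      exact h hy

lemma mem_phi {ι : Type} (X : Subgroup (ι → Gp false)) (y : ι → Gp true) :
    y ∈ phi ι X ↔ (FF ι false).symm y ∈ X := Iff.rfl

/-- the coordinate subgroups correspond -/
lemma phi_single {ι : Type} [DecidableEq ι] (i : ι) :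
    phi ι (MonoidHom.mulSingle (fun _ : ι => Gp false) i).range =
      (MonoidHom.mulSingle (fun _ : ι => Gp true) i).range := by
  ext y
  rw [mem_phi]
  constructor
  · rintro ⟨g, hg⟩
    refine ⟨F false g, ?_⟩
    have : y = FF ι false (Pi.mulSingle i g) := by
      rw [← Equiv.symm_apply_eq]
      exact hg.symm
    rw [this]
    funext j
    rw [MonoidHom.mulSingle_apply]
    show _ = F false (Pi.mulSingle (M := fun _ : ι => Gp false) i g j)
    by_cases hj : j = i
    · subst hj; rw [Pi.mulSingle_eq_same, Pi.mulSingle_eq_same]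
    · rw [Pi.mulSingle_eq_of_ne hj, Pi.mulSingle_eq_of_ne hj]
      ext
      · simp
      · simp
  · rintro ⟨g, rfl⟩
    refine ⟨(F false).symm g, ?_⟩
    rw [MonoidHom.mulSingle_apply, MonoidHom.mulSingle_apply]
    funext j
    show _ = (F false).symm (Pi.mulSingle (M := fun _ : ι => Gp true) i g j)
    by_cases hj : j = i
    · subst hj; rw [Pi.mulSingle_eq_same, Pi.mulSingle_eq_same]
    · rw [Pi.mulSingle_eq_of_ne hj, Pi.mulSingle_eq_of_ne hj]
      ext
      · show _ = c (!false) (0 : ZMod 3) * 0
        simp
      · rfl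

lemma single_normal {ι : Type} [DecidableEq ι] (b : Bool) (i : ι) :
    ((MonoidHom.mulSingle (fun _ : ι => Gp b) i).range).Normal := by
  constructor
  rintro _ ⟨g, rfl⟩ h
  refine ⟨h i * g * (h i)⁻¹, ?_⟩
  funext j
  rw [MonoidHom.mulSingle_apply, MonoidHom.mulSingle_apply, Pi.mul_apply, Pi.mul_apply,
    Pi.inv_apply]
  by_cases hj : j = i
  · subst hj; rw [Pi.mulSingle_eq_same, Pi.mulSingle_eq_same]
  · rw [Pi.mulSingle_eq_of_ne hj, Pi.mulSingle_eq_of_ne hj]; group

lemma single_iSup {ι : Type} [DecidableEq ι] [Finite ι] (b : Bool) :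
    (⨆ i : ι, (MonoidHom.mulSingle (fun _ : ι => Gp b) i).range) = ⊤ := by
  classical
  cases nonempty_fintype ι
  rw [eq_top_iff]
  intro x _
  have hx := Subgroup.pi_mem_of_mulSingle_mem (H := ⨆ i : ι,
    (MonoidHom.mulSingle (fun _ : ι => Gp b) i).range) x (fun i =>
      Subgroup.mem_iSup_of_mem i ⟨x i, rfl⟩)
  exact hx

lemma single_indep {ι : Type} [DecidableEq ι] (b : Bool) :
    iSupIndep (fun i : ι => (MonoidHom.mulSingle (fun _ : ι => Gp b) i).range) := by
  intro i
  rw [disjoint_iff_inf_le]
  rintro x ⟨⟨g, rfl⟩, h2⟩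
  -- all elements of the join of the others have trivial i-component
  have h3 : (⨆ j, ⨆ (_ : j ≠ i), (MonoidHom.mulSingle (fun _ : ι => Gp b) j).range) ≤
      (Pi.evalMonoidHom (fun _ : ι => Gp b) i).ker := by
    refine iSup₂_le fun j hj => ?_
    rintro _ ⟨h, rfl⟩
    rw [MonoidHom.mem_ker, Pi.evalMonoidHom_apply, MonoidHom.mulSingle_apply,
      Pi.mulSingle_eq_of_ne (Ne.symm hj)]
  have h4 := h3 h2
  rw [MonoidHom.mem_ker, Pi.evalMonoidHom_apply, MonoidHom.mulSingle_apply,
    Pi.mulSingle_eq_same] at h4
  rw [Subgroup.mem_bot, h4, map_one]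

lemma pow_el {b : Bool} (z : ZMod 91) (t : ℕ) : (⟨z, 0⟩ : Gp b) ^ t = ⟨t * z, 0⟩ := by
  induction t with
  | zero => ext <;> simp
  | succ t ih =>
    rw [pow_succ, ih]
    ext
    · simp [chi_zero]; ring
    · simp

lemma pow_k {b : Bool} (g : Gp b) (t : ℕ) : (g ^ t).k = t * g.k := by
  induction t with
  | zero => simp
  | succ t ih => rw [pow_succ, Gp.mul_k, ih]; push_cast; ring

/-- the two groups are not isomorphic -/
lemma not_iso : ¬ Nonempty (Gp true ≃* Gp false) := by
  rintro ⟨e⟩
  -- in `Gp true` the generator acts on the normal subgroup of order 91 as multiplication by 9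
  set z : Gp true := ⟨1, 0⟩ with hz
  set w : Gp true := ⟨0, 1⟩ with hw
  have h1 : w * z * w⁻¹ = z ^ 9 := by
    rw [pow_el]
    ext
    · show (0 + chi true 1 * 1) + chi true (1 + 0) * -(chi true (-1) * 0) = ((9 : ℕ) : ZMod 91) * 1
      decide
    · show (1 : ZMod 3) + 0 + -1 = 0
      decide
  have h2 : z ^ 91 = 1 := by
    rw [pow_el]
    ext
    · show ((91 : ℕ) : ZMod 91) * 1 = 0
      decide
    · rfl
  have h3 : ∀ t : ℕ, z ^ t = 1 → (t : ZMod 91) = 0 := by
    intro t ht
    rw [pow_el] at ht
    have := congrArg Gp.n ht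
    simpa using this
  have h1' := congrArg e h1
  rw [map_mul, map_mul, map_inv, map_pow] at h1'
  have h2' := congrArg e h2
  rw [map_pow, map_one] at h2'
  -- the image of z lies in the normal subgroup of order 91
  have hk : (e z).k = 0 := by
    have := congrArg Gp.k h2'
    rw [pow_k, Gp.one_k] at this
    have h5 : ((91 : ℕ) : ZMod 3) = 1 := by decide
    rwa [h5, one_mul] at this
  have hez : e z = ⟨(e z).n, 0⟩ := by
    ext
    · rfl
    · exact hk
  set m := (e z).n with hm
  set l := (e w).k with hl
  have h6 : chi false l * m = 9 * m := by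
    rw [hez, pow_el] at h1'
    have := congrArg Gp.n h1'
    simp only [Gp.mul_n, Gp.mul_k, Gp.inv_n, add_zero] at this
    have e1 := chi_mul_neg false (e w).k
    rw [← hl] at e1
    rw [← hl] at this
    push_cast at this
    linear_combination this + (e w).n * e1
  -- 7 m = 0 or 13 m = 0
  have h7 : (7 : ZMod 91) * m = 0 ∨ (13 : ZMod 91) * m = 0 := by
    clear_value m l
    revert l m
    have : ∀ (l : ZMod 3) (m : ZMod 91), chi false l * m = 9 * m →
      (7 : ZMod 91) * m = 0 ∨ (13 : ZMod 91) * m = 0 := by decide
    intro m _ _ l _ h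
    exact this l m h
  rcases h7 with h7 | h7
  · have h8 : e (z ^ 7) = e 1 := by
      rw [map_pow, map_one, hez, pow_el]
      ext
      · simpa using h7
      · rfl
    have := h3 7 (e.injective h8)
    revert this; decide
  · have h8 : e (z ^ 13) = e 1 := by
      rw [map_pow, map_one, hez, pow_el]
      ext
      · simpa using h7
      · rfl
    have := h3 13 (e.injective h8)
    revert this; decide

/-- a factor is isomorphic to its coordinate subgroup -/
noncomputable def singleIso {ι : Type} [DecidableEq ι] (b : Bool) (i : ι) :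
    Gp b ≃* (MonoidHom.mulSingle (fun _ : ι => Gp b) i).range :=
  MonoidHom.ofInjective (f := MonoidHom.mulSingle (fun _ : ι => Gp b) i)
    (by
      intro x y h
      have := congrFun h i
      rw [MonoidHom.mulSingle_apply, MonoidHom.mulSingle_apply, Pi.mulSingle_eq_same,
        Pi.mulSingle_eq_same] at this
      exact this)

/-- For all direct powers with a finite number `n ≥ 1` of factors: the lattices of subgroups are
isomorphic, the coordinate subgroups correspond, and the factors are not isomorphic. -/
theorem counterexample (ι : Type) [DecidableEq ι] [Finite ι] :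
    (∀ i : ι, (phi ι (MonoidHom.mulSingle (fun _ : ι => Gp false) i).range).Normal) ∧
    (⨆ i : ι, phi ι (MonoidHom.mulSingle (fun _ : ι => Gp false) i).range) = ⊤ ∧
    iSupIndep (fun i : ι => phi ι (MonoidHom.mulSingle (fun _ : ι => Gp false) i).range) ∧
    ∀ i : ι, ¬ Nonempty
      (↥(phi ι (MonoidHom.mulSingle (fun _ : ι => Gp false) i).range) ≃* Gp false) := by
  refine ⟨fun i => ?_, ?_, ?_, fun i => ?_⟩
  · rw [phi_single]; exact single_normal true i
  · simp_rw [phi_single]; exact single_iSup true
  · simp_rw [phi_single]; exact single_indep true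
  · rw [phi_single]
    rintro ⟨e⟩
    exact not_iso ⟨(singleIso true i).trans e⟩

end Pool.Agent.K3h61.Proj
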