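import Mathlib

/-!
# A bilinear form commuting with a symmetric operator inherits its numerical bound
-/

set_option autoImplicit false

namespace Pool.Agent.K3h61.SOF

theorem form_le {E : Type} [NormedAddCommGroup E] [InnerProductSpace ℝ E] [FiniteDimensional ℝ E]
    (T : E →ₗ[ℝ] E) (hT : T.IsSymmetric) (c : ℝ)
    (hc : ∀ v, inner ℝ (T v) v ≤ c * ‖v‖ ^ 2) (B : E →ₗ[ℝ] E →ₗ[ℝ] ℝ) (hB : ∀ v, 0 ≤ B v v)
    (hBT : ∀ u v, B (T u) v = B u (T v)) (v : E) : B (T v) v ≤ c * B v v := by
  classical
  set b := hT.eigenvectorBasis rfl with hb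
  set l := hT.eigenvalues rfl with hl
  have hTb : ∀ i, T (b i) = l i • b i := fun i => hT.apply_eigenvectorBasis rfl i
  have hlc : ∀ i, 0 ≤ c - l i := by
    intro i
    have h1 := hc (b i)
    rw [hTb, inner_smul_left, real_inner_self_eq_norm_sq, b.norm_eq_one] at h1
    simp at h1
    linarith
  have hBl : ∀ i j, Real.sqrt (c - l i) * Real.sqrt (c - l j) * B (b i) (b j) =
      (c - l i) * B (b i) (b j) := by
    intro i j
    have h1 := hBT (b i) (b j)
    rw [hTb, hTb] at h1
    simp only [map_smul, LinearMap.smul_apply, smul_eq_mul] at h1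
    by_cases h : B (b i) (b j) = 0
    · rw [h]; ring
    · have h2 : l i = l j := mul_right_cancel₀ h h1
      rw [← h2, Real.mul_self_sqrt (hlc i)]
  set a : _ → ℝ := fun i => b.repr v i with ha
  have hv : v = ∑ i, a i • b i := (b.sum_repr v).symm
  have e1 := hB (∑ i, (a i * Real.sqrt (c - l i)) • b i)
  have e2 : B (∑ i, (a i * Real.sqrt (c - l i)) • b i) (∑ i, (a i * Real.sqrt (c - l i)) • b i) =
      ∑ i, ∑ j, a i * a j * (c - l i) * B (b i) (b j) := by
    simp only [map_sum, LinearMap.sum_apply, map_smul, LinearMap.smul_apply, smul_eq_mul]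
    rw [Finset.sum_comm]
    refine Finset.sum_congr rfl (fun i _ => ?_)
    rw [Finset.mul_sum]
    refine Finset.sum_congr rfl (fun j _ => ?_)
    have := hBl j i
    linear_combination (a i * a j) * this
  have e3 : c * B v v - B (T v) v = ∑ i, ∑ j, a i * a j * (c - l i) * B (b i) (b j) := by
    conv_lhs => rw [hv]
    simp only [map_sum, LinearMap.sum_apply, map_smul, LinearMap.smul_apply, smul_eq_mul, hTb]
    rw [Finset.sum_comm, Finset.mul_sum]
    rw [← Finset.sum_sub_distrib]
    refine Finset.sum_congr rfl (fun i _ => ?_)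
    rw [Finset.mul_sum, Finset.mul_sum, Finset.mul_sum, ← Finset.sum_sub_distrib]
    refine Finset.sum_congr rfl (fun j _ => ?_)
    ring
  rw [e2] at e1
  linarith

end Pool.Agent.K3h61.SOF
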