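import Pool.Agent.K3h61.SOFRep

/-!
# The algebra of matrix coefficients of `SO(ι)` is dense in the continuous functions
-/

set_option autoImplicit false

open Matrix

namespace Pool.Agent.K3h61.SOF

open Pool.Agent.K3h92

variable {ι : Type} [Fintype ι] [DecidableEq ι]

/-- `f` is a matrix coefficient of a matrix representation. -/
def IsCoef (f : SO ι → ℝ) : Prop :=
  ∃ (κ : Type) (_ : Fintype κ) (_ : DecidableEq κ) (R : MRep ι κ) (u w : κ → ℝ),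
    ∀ x, f x = u ⬝ᵥ (R.ρ x *ᵥ w)

lemma IsCoef.mul {f g : SO ι → ℝ} (hf : IsCoef f) (hg : IsCoef g) :
    IsCoef (fun x => f x * g x) := by
  obtain ⟨κ₁, _, _, R₁, u₁, w₁, h₁⟩ := hf
  obtain ⟨κ₂, _, _, R₂, u₂, w₂, h₂⟩ := hg
  refine ⟨κ₁ × κ₂, inferInstance, inferInstance, R₁.tensor R₂, fun p => u₁ p.1 * u₂ p.2,
    fun p => w₁ p.1 * w₂ p.2, fun x => ?_⟩
  change f x * g x = _
  rw [h₁, h₂]
  have e : ∀ p : κ₁ × κ₂, ((R₁.tensor R₂).ρ x *ᵥ fun p : κ₁ × κ₂ => w₁ p.1 * w₂ p.2) p =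
      (R₁.ρ x *ᵥ w₁) p.1 * (R₂.ρ x *ᵥ w₂) p.2 := by
    intro p
    simp only [Matrix.mulVec, dotProduct]
    rw [Fintype.sum_mul_sum, Fintype.sum_prod_type]
    refine Finset.sum_congr rfl (fun i _ => Finset.sum_congr rfl (fun j _ => ?_))
    change (R₁.ρ x p.1 i * R₂.ρ x p.2 j) * _ = _
    ring
  simp only [dotProduct, e]
  rw [Fintype.sum_mul_sum, Fintype.sum_prod_type]
  refine Finset.sum_congr rfl (fun i _ => Finset.sum_congr rfl (fun j _ => ?_))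
  simp only
  ring

lemma IsCoef.add {f g : SO ι → ℝ} (hf : IsCoef f) (hg : IsCoef g) :
    IsCoef (fun x => f x + g x) := by
  obtain ⟨κ₁, _, _, R₁, u₁, w₁, h₁⟩ := hf
  obtain ⟨κ₂, _, _, R₂, u₂, w₂, h₂⟩ := hg
  refine ⟨κ₁ ⊕ κ₂, inferInstance, inferInstance, R₁.sum R₂, Sum.elim u₁ u₂,
    Sum.elim w₁ w₂, fun x => ?_⟩
  change f x + g x = _
  rw [h₁, h₂]
  change _ = Sum.elim u₁ u₂ ⬝ᵥ (Matrix.fromBlocks (R₁.ρ x) 0 0 (R₂.ρ x) *ᵥ Sum.elim w₁ w₂)
  rw [Matrix.fromBlocks_mulVec, sumElim_dotProduct_sumElim]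
  simp

lemma isCoef_const (r : ℝ) : IsCoef (fun _ : SO ι => r) := by
  refine ⟨Unit, inferInstance, inferInstance, MRep.triv ι, fun _ => r, fun _ => 1, fun x => ?_⟩
  simp [MRep.triv, Matrix.mulVec, dotProduct]

lemma isCoef_entry (i j : ι) : IsCoef (fun x : SO ι => (x : Matrix ι ι ℝ) i j) := by
  refine ⟨ι, inferInstance, inferInstance, MRep.std ι, Pi.single i 1, Pi.single j 1,
    fun x => ?_⟩
  simp [MRep.std]

variable (ι) in
/-- the algebra of matrix coefficients -/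
def coefAlg : Subalgebra ℝ C(SO ι, ℝ) where
  carrier := {f | IsCoef (f : SO ι → ℝ)}
  mul_mem' hf hg := hf.mul hg
  add_mem' hf hg := hf.add hg
  algebraMap_mem' r := isCoef_const r

lemma mem_coefAlg (f : C(SO ι, ℝ)) : f ∈ coefAlg ι ↔ IsCoef (f : SO ι → ℝ) := Iff.rfl

lemma coefAlg_separates : (coefAlg ι).SeparatesPoints := by
  intro x y hxy
  have h : ∃ i j, (x : Matrix ι ι ℝ) i j ≠ (y : Matrix ι ι ℝ) i j := by
    by_contra hcon
    push Not at hcon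
    exact hxy (Subtype.ext (Matrix.ext hcon))
  obtain ⟨i, j, hij⟩ := h
  refine ⟨fun x => (x : Matrix ι ι ℝ) i j, ?_, hij⟩
  refine ⟨⟨fun x : SO ι => (x : Matrix ι ι ℝ) i j, (MRep.std ι).cont i j⟩, ?_, rfl⟩
  exact isCoef_entry i j

lemma coefAlg_dense : (coefAlg ι).topologicalClosure = ⊤ :=
  ContinuousMap.subalgebra_topologicalClosure_eq_top_of_separatesPoints _ coefAlg_separates

end Pool.Agent.K3h61.SOF
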