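import Pool.Agent.K3h92.Top

/-!
# The plane rotations generate `SO(ι)`; the vectors killed by the generators are invariant
-/

set_option autoImplicit false

open Matrix

namespace Pool.Agent.K3h61.SOGen

open Pool.Agent.K3h92

variable {ι : Type} [Fintype ι] [DecidableEq ι]

variable (ι) in
/-- the subgroup generated by the plane rotations -/
def H : Subgroup (SO ι) := Subgroup.closure {g | ∃ (a b : ι) (hab : a ≠ b) (t : ℝ), g = rot a b hab t}

lemma rot_mem (a b : ι) (hab : a ≠ b) (t : ℝ) : rot a b hab t ∈ H ι :=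
  Subgroup.subset_closure ⟨a, b, hab, t, rfl⟩

lemma rot_mul_apply {a b : ι} (hab : a ≠ b) (t : ℝ) (g : Matrix ι ι ℝ) (i j : ι) :
    (rotMat a b t * g) i j =
      if i = a then Real.cos t * g a j + Real.sin t * g b j
      else if i = b then Real.cos t * g b j - Real.sin t * g a j
      else g i j := by
  unfold rotMat
  simp only [add_mul, sub_mul, Matrix.smul_mul, Matrix.add_apply, Matrix.smul_apply,
    Matrix.sub_apply, one_mul, smul_eq_mul]
  by_cases h1 : i = a
  · subst h1
    simp [hab]
  · by_cases h2 : i = b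
    · subst h2
      simp [h1]
      ring
    · simp [h1, h2]

/-- `g` fixes the basis vectors with index in `J` -/
def Fix (J : Finset ι) (g : Matrix ι ι ℝ) : Prop := ∀ j ∈ J, ∀ i, g i j = (1 : Matrix ι ι ℝ) i j

lemma Fix.row {J : Finset ι} {g : SO ι} (h : Fix J (g : Matrix ι ι ℝ)) {j : ι} (hj : j ∈ J) (i : ι) :
    (g : Matrix ι ι ℝ) j i = (1 : Matrix ι ι ℝ) j i := by
  have h1 := ((SO.mem_iff _).1 g.2).1
  have h2 := congrFun (congrFun h1 j) i
  rw [Matrix.mul_apply] at h2
  simp only [Matrix.transpose_apply, h j hj] at h2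
  rw [← h2]
  simp [Matrix.one_apply]

lemma claim (J : Finset ι) (a : ι) (ha : a ∉ J) (B : Finset ι) (hB : ∀ b ∈ B, b ∉ J ∧ a ≠ b)
    (g : SO ι) (hg : Fix J (g : Matrix ι ι ℝ)) :
    ∃ h ∈ H ι, Fix J ((h * g : SO ι) : Matrix ι ι ℝ) ∧
      (∀ b ∈ B, ((h * g : SO ι) : Matrix ι ι ℝ) b a = 0) ∧
      (B.Nonempty → 0 ≤ ((h * g : SO ι) : Matrix ι ι ℝ) a a) := by
  classical
  induction B using Finset.induction_on with
  | empty => exact ⟨1, one_mem _, by simpa using hg, by simp, by simp⟩
  | insert b B hbB ih =>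
    obtain ⟨h, hh, h1, h2, -⟩ := ih (fun c hc => hB c (Finset.mem_insert_of_mem hc))
    obtain ⟨hbJ, hab⟩ := hB b (Finset.mem_insert_self _ _)
    set y : SO ι := h * g with hy
    set z : ℂ := ⟨(y : Matrix ι ι ℝ) a a, (y : Matrix ι ι ℝ) b a⟩ with hz
    have hre : ‖z‖ * Real.cos z.arg = (y : Matrix ι ι ℝ) a a := by
      rw [Complex.norm_mul_cos_arg]
    have him : ‖z‖ * Real.sin z.arg = (y : Matrix ι ι ℝ) b a := by
      rw [Complex.norm_mul_sin_arg]
    refine ⟨rot a b hab z.arg * h, mul_mem (rot_mem _ _ _ _) hh, ?_, ?_, ?_⟩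
    · intro j hj i
      rw [mul_assoc, ← hy]
      change (rotMat a b z.arg * (y : Matrix ι ι ℝ)) i j = _
      rw [rot_mul_apply hab, h1 j hj, h1 j hj, h1 j hj]
      have hja : a ≠ j := fun h => ha (h ▸ hj)
      have hjb : b ≠ j := fun h => hbJ (h ▸ hj)
      split_ifs with h3 h4
      · subst h3; simp [Matrix.one_apply_ne hja, Matrix.one_apply_ne hjb]
      · subst h4; simp [Matrix.one_apply_ne hja, Matrix.one_apply_ne hjb]
      · rfl
    · intro c hc
      rw [mul_assoc, ← hy]
      change (rotMat a b z.arg * (y : Matrix ι ι ℝ)) c a = _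
      rw [rot_mul_apply hab]
      have hca : c ≠ a := fun h => (hB c hc).2 h.symm
      rw [if_neg hca]
      split_ifs with h3
      · rw [← hre, ← him]; ring
      · exact h2 c ((Finset.mem_insert.1 hc).resolve_left h3)
    · intro _
      rw [mul_assoc, ← hy]
      change 0 ≤ (rotMat a b z.arg * (y : Matrix ι ι ℝ)) a a
      rw [rot_mul_apply hab, if_pos rfl, ← hre, ← him]
      have := norm_nonneg z
      nlinarith [sq_nonneg (Real.cos z.arg), sq_nonneg (Real.sin z.arg), Real.sin_sq_add_cos_sq z.arg]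

lemma last_case (a : ι) (g : SO ι) (hg : Fix (Finset.univ.erase a) (g : Matrix ι ι ℝ)) : g = 1 := by
  have h1 : (g : Matrix ι ι ℝ) = Matrix.diagonal (fun i => if i = a then (g : Matrix ι ι ℝ) a a else 1) := by
    ext i j
    by_cases hj : j = a
    · subst hj
      by_cases hi : i = j
      · subst hi; simp
      · rw [hg.row (Finset.mem_erase.2 ⟨hi, Finset.mem_univ _⟩), Matrix.diagonal_apply_ne _ hi,
          Matrix.one_apply_ne hi]
    · rw [hg j (Finset.mem_erase.2 ⟨hj, Finset.mem_univ _⟩) i]
      by_cases hi : i = j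
      · subst hi; simp [hj]
      · rw [Matrix.diagonal_apply_ne _ hi, Matrix.one_apply_ne hi]
  have h2 := ((SO.mem_iff _).1 g.2).2
  have h3 : (g : Matrix ι ι ℝ) a a = 1 := by
    rw [h1, Matrix.det_diagonal] at h2
    simpa using h2
  apply Subtype.ext
  rw [h1, h3]
  ext i j
  simp [Matrix.diagonal_apply, Matrix.one_apply]

lemma all_mem : ∀ (m : ℕ) (J : Finset ι), Jᶜ.card = m → ∀ g : SO ι,
    Fix J (g : Matrix ι ι ℝ) → g ∈ H ι := by
  intro m
  induction m with
  | zero =>
    intro J hJ g hg
    have hJ' : J = Finset.univ := by simpa using hJ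
    have : g = 1 := by
      apply Subtype.ext
      ext i j
      exact hg j (by rw [hJ']; exact Finset.mem_univ _) i
    rw [this]; exact one_mem _
  | succ m ih =>
    intro J hJ g hg
    obtain ⟨a, ha⟩ : Jᶜ.Nonempty := by rw [← Finset.card_pos, hJ]; omega
    have haJ : a ∉ J := by simpa using ha
    by_cases hB : (Jᶜ.erase a).Nonempty
    · obtain ⟨h, hh, h1, h2, h3⟩ := claim J a haJ (Jᶜ.erase a) (by
        intro b hb
        rw [Finset.mem_erase, Finset.mem_compl] at hb
        exact ⟨hb.2, fun h => hb.1 h.symm⟩) g hg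
      set y : SO ι := h * g with hy
      have hcol : ∀ i, i ≠ a → (y : Matrix ι ι ℝ) i a = 0 := by
        intro i hi
        by_cases hiJ : i ∈ J
        · rw [h1.row hiJ, Matrix.one_apply_ne hi]
        · exact h2 i (Finset.mem_erase.2 ⟨hi, Finset.mem_compl.2 hiJ⟩)
      have haa : (y : Matrix ι ι ℝ) a a = 1 := by
        have e1 := ((SO.mem_iff _).1 y.2).1
        have e2 := congrFun (congrFun e1 a) a
        rw [Matrix.mul_apply, Finset.sum_eq_single a, Matrix.transpose_apply, Matrix.one_apply_eq] at e2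
        · nlinarith [h3 hB]
        · intro i _ hi; rw [hcol i hi, mul_zero]
        · simp
      have hy2 : y ∈ H ι := by
        refine ih (insert a J) ?_ y ?_
        · rw [Finset.compl_insert, Finset.card_erase_of_mem ha, hJ]; rfl
        · intro j hj i
          rcases Finset.mem_insert.1 hj with rfl | hj
          · by_cases hi : i = j
            · subst hi; rw [haa, Matrix.one_apply_eq]
            · rw [hcol i hi, Matrix.one_apply_ne hi]
          · exact h1 j hj i
      have : g = h⁻¹ * y := by rw [hy]; group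
      rw [this]
      exact mul_mem (inv_mem hh) hy2
    · have hJa : J = Finset.univ.erase a := by
        rw [Finset.not_nonempty_iff_eq_empty] at hB
        ext i
        simp only [Finset.mem_erase, Finset.mem_univ, and_true]
        constructor
        · rintro hi rfl; exact haJ hi
        · intro hi
          by_contra hiJ
          have : i ∈ Jᶜ.erase a := Finset.mem_erase.2 ⟨hi, Finset.mem_compl.2 hiJ⟩
          rw [hB] at this
          simp at this
      rw [last_case a g (hJa ▸ hg)]
      exact one_mem _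

/-- The plane rotations generate `SO(ι)`. -/
theorem H_eq_top : H ι = ⊤ := by
  rw [eq_top_iff]
  intro g _
  refine all_mem _ ∅ rfl g ?_
  intro j hj
  simp at hj

section Inv

variable {V : Type} [NormedAddCommGroup V] [InnerProductSpace ℝ V]

/-- the operators of the representation as isometries -/
noncomputable def isom (R : SORep ι V) (g : SO ι) : V →ₗᵢ[ℝ] V := ⟨R.ρ g, R.norm_ρ g⟩

lemma rot_zero {a b : ι} (hab : a ≠ b) : rot a b hab 0 = 1 :=
  Subtype.ext (rotMat_zero a b)

lemma rot_add {a b : ι} (hab : a ≠ b) (s t : ℝ) :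
    rot a b hab (s + t) = rot a b hab s * rot a b hab t :=
  Subtype.ext (rotMat_add hab s t)

lemma hasDerivAt_rot (R : SORep ι V) {a b : ι} (hab : a ≠ b) (v : V) (t : ℝ) :
    HasDerivAt (fun t : ℝ => R.ρ (rot a b hab t) v) (R.ρ (rot a b hab t) (R.A a b v)) t := by
  have h0 := R.deriv a b hab v
  have h1 : HasDerivAt (fun s : ℝ => (isom R (rot a b hab t)) (R.ρ (rot a b hab s) v))
      ((isom R (rot a b hab t)) (R.A a b v)) 0 :=
    (isom R (rot a b hab t)).toContinuousLinearMap.hasFDerivAt.comp_hasDerivAt 0 h0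
  have h2 : HasDerivAt (fun u : ℝ => (isom R (rot a b hab t)) (R.ρ (rot a b hab (u - t)) v))
      ((isom R (rot a b hab t)) (R.A a b v)) t := by
    have h3 : HasDerivAt (fun u : ℝ => u - t) 1 t := (hasDerivAt_id t).sub_const t
    have h4 := HasDerivAt.scomp (h := fun u : ℝ => u - t) t (by simpa using h1) h3
    rw [one_smul] at h4
    exact h4
  refine h2.congr_of_eventuallyEq (Filter.Eventually.of_forall (fun u => ?_))
  change R.ρ (rot a b hab u) v = R.ρ (rot a b hab t) (R.ρ (rot a b hab (u - t)) v)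
  rw [← Module.End.mul_apply, ← map_mul, ← rot_add]
  congr 3
  ring

theorem rho_eq_of_mem_InvAll (R : SORep ι V) {v : V} (hv : v ∈ R.toLieRep.InvAll) (g : SO ι) :
    R.ρ g v = v := by
  rw [LieRep.mem_InvAll] at hv
  have hr : ∀ (a b : ι) (hab : a ≠ b) (t : ℝ), R.ρ (rot a b hab t) v = v := by
    intro a b hab t
    have h1 : ∀ t, HasDerivAt (fun t : ℝ => R.ρ (rot a b hab t) v) 0 t := by
      intro t
      have := hasDerivAt_rot R hab v t
      rwa [hv, map_zero] at this
    have h2 := is_const_of_deriv_eq_zero (fun t => (h1 t).differentiableAt) (fun t => (h1 t).deriv) t 0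
    rw [h2, rot_zero, map_one, Module.End.one_apply]
  have hg : g ∈ H ι := by rw [H_eq_top]; trivial
  induction hg using Subgroup.closure_induction with
  | mem x hx =>
    obtain ⟨a, b, hab, t, rfl⟩ := hx
    exact hr a b hab t
  | one => rw [map_one, Module.End.one_apply]
  | mul x y _ _ hx hy => rw [map_mul, Module.End.mul_apply, hy, hx]
  | inv x _ hx =>
    have h1 : R.ρ x⁻¹ (R.ρ x v) = v := by
      rw [← Module.End.mul_apply, ← map_mul, inv_mul_cancel, map_one, Module.End.one_apply]
    rwa [hx] at h1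

theorem mem_InvAll_of_rho (R : SORep ι V) {v : V} (hv : ∀ g, R.ρ g v = v) :
    v ∈ R.toLieRep.InvAll := by
  rw [LieRep.mem_InvAll]
  intro a b
  by_cases hab : a = b
  · subst hab
    have h := R.anti a a
    have h2 : R.A a a v = -R.A a a v := by
      rw [← LinearMap.neg_apply, ← h]
    have h3 : (2 : ℝ) • R.A a a v = 0 := by
      rw [two_smul]; nth_rewrite 1 [h2]; simp
    simpa using h3
  · have h1 := R.deriv a b hab v
    have h2 : (fun t : ℝ => R.ρ (rot a b hab t) v) = fun _ => v := by
      funext t; exact hv _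
    rw [h2] at h1
    exact h1.unique (hasDerivAt_const _ _)

theorem mem_InvAll_iff (R : SORep ι V) {v : V} :
    v ∈ R.toLieRep.InvAll ↔ ∀ g, R.ρ g v = v :=
  ⟨fun hv g => rho_eq_of_mem_InvAll R hv g, mem_InvAll_of_rho R⟩

end Inv

end Pool.Agent.K3h61.SOGen
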