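import Pool.Agent.K3h61.SOFAlg
import Pool.Agent.K3h61.SOFAbs
import Pool.Agent.K3h61.SOGen

/-!
# The spectral gap for matrix coefficients
-/

set_option autoImplicit false

open Matrix MeasureTheory

namespace Pool.Agent.K3h61.SOF

open Pool.Agent.K3h92 Pool.Agent.K3h61.SOGen

variable {ι : Type} [Fintype ι] [DecidableEq ι]

/-- The finite set `T` has a Kazhdan constant for all the finite-dimensional representations. -/
def Gap (T : Finset (SO ι)) (ε : ℝ) : Prop :=
  ∀ (V : Type) [NormedAddCommGroup V] [InnerProductSpace ℝ V] [FiniteDimensional ℝ V]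
    (R : SORep ι V) (v : V), v ∈ (R.toLieRep.InvAll)ᗮ →
    2 * ε * ‖v‖ ^ 2 ≤ ∑ s ∈ T, ‖R.ρ s v - v‖ ^ 2

lemma int_of_cont {E : Type} [NormedAddCommGroup E] {f : SO ι → E} (hf : Continuous f) :
    Integrable f (haarSO ι) :=
  hf.integrable_of_hasCompactSupport (HasCompactSupport.of_compactSpace f)

section

variable {V : Type} [NormedAddCommGroup V] [InnerProductSpace ℝ V]
  (R : SORep ι V) (W : V)

lemma inner_rho (g : SO ι) (u v : V) : inner ℝ (R.ρ g u) (R.ρ g v) = inner ℝ u v :=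
  (isom R g).inner_map_map u v

lemma rho_rho_inv (g : SO ι) (v : V) : R.ρ g (R.ρ g⁻¹ v) = v := by
  rw [← Module.End.mul_apply, ← map_mul, mul_inv_cancel, map_one, Module.End.one_apply]

lemma rho_mul (g h : SO ι) (v : V) : R.ρ (g * h) v = R.ρ g (R.ρ h v) := by
  rw [map_mul, Module.End.mul_apply]

lemma inner_rho_left (g : SO ι) (u v : V) :
    inner ℝ (R.ρ g u) v = inner ℝ u (R.ρ g⁻¹ v) := by
  conv_lhs => rw [← rho_rho_inv R g v]
  rw [inner_rho]

lemma inner_rho_right (g : SO ι) (u v : V) :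
    inner ℝ u (R.ρ g v) = inner ℝ (R.ρ g⁻¹ u) v := by
  rw [inner_rho_left, inv_inv]

/-- the matrix coefficient -/
noncomputable def F (M : V) (x : SO ι) : ℝ := inner ℝ M (R.ρ x W)

lemma F_cont (M : V) : Continuous (F R W M) := Continuous.inner continuous_const (R.cont W)

lemma F_add (M N : V) (x : SO ι) : F R W (M + N) x = F R W M x + F R W N x := by
  unfold F; rw [inner_add_left]

lemma F_smul (c : ℝ) (M : V) (x : SO ι) : F R W (c • M) x = c * F R W M x := by
  unfold F; rw [real_inner_smul_left]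

lemma F_mul_cont (M N : V) : Continuous (fun x => F R W M x * F R W N x) :=
  (F_cont R W M).mul (F_cont R W N)

lemma F_translate (M : V) (g x : SO ι) : F R W M (g * x) = F R W (R.ρ g⁻¹ M) x := by
  unfold F
  rw [rho_mul, inner_rho_right]

/-- the form `∫ <M, ρ(x)W> <N, ρ(x)W> dx` -/
noncomputable def B : V →ₗ[ℝ] V →ₗ[ℝ] ℝ :=
  LinearMap.mk₂ ℝ (fun M N => ∫ x, F R W M x * F R W N x ∂haarSO ι)
    (by
      intro M M' N
      rw [← integral_add (int_of_cont (F_mul_cont R W _ _)) (int_of_cont (F_mul_cont R W _ _))]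
      refine integral_congr_ae (Filter.Eventually.of_forall (fun x => ?_))
      simp only [F_add]; ring)
    (by
      intro c M N
      rw [smul_eq_mul, ← integral_const_mul]
      refine integral_congr_ae (Filter.Eventually.of_forall (fun x => ?_))
      simp only [F_smul]; ring)
    (by
      intro M N N'
      rw [← integral_add (int_of_cont (F_mul_cont R W _ _)) (int_of_cont (F_mul_cont R W _ _))]
      refine integral_congr_ae (Filter.Eventually.of_forall (fun x => ?_))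
      simp only [F_add]; ring)
    (by
      intro c M N
      rw [smul_eq_mul, ← integral_const_mul]
      refine integral_congr_ae (Filter.Eventually.of_forall (fun x => ?_))
      simp only [F_smul]; ring)

lemma B_apply (M N : V) : B R W M N = ∫ x, F R W M x * F R W N x ∂haarSO ι := rfl

lemma B_nonneg (M : V) : 0 ≤ B R W M M := by
  rw [B_apply]
  exact integral_nonneg (fun x => mul_self_nonneg _)

lemma B_rho (g : SO ι) (M N : V) : B R W (R.ρ g M) N = B R W M (R.ρ g⁻¹ N) := by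
  rw [B_apply, B_apply]
  rw [← integral_mul_left_eq_self (fun x => F R W (R.ρ g M) x * F R W N x) g]
  refine integral_congr_ae (Filter.Eventually.of_forall (fun x => ?_))
  simp only [F_translate]
  rw [← rho_mul, inv_mul_cancel, map_one, Module.End.one_apply]

/-- the sum of the operators of a finite set -/
noncomputable def TT (T : Finset (SO ι)) : V →ₗ[ℝ] V := ∑ s ∈ T, R.ρ s

lemma TT_apply (T : Finset (SO ι)) (v : V) : TT R T v = ∑ s ∈ T, R.ρ s v := by
  simp [TT]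

lemma sum_inv_eq {β : Type} [AddCommMonoid β] (T : Finset (SO ι)) (hT : ∀ s ∈ T, s⁻¹ ∈ T)
    (f : SO ι → β) : ∑ s ∈ T, f s⁻¹ = ∑ s ∈ T, f s :=
  Finset.sum_nbij' (fun s => s⁻¹) (fun s => s⁻¹) hT hT (fun s _ => inv_inv s)
    (fun s _ => inv_inv s) (fun _ _ => rfl)

lemma TT_symm (T : Finset (SO ι)) (hT : ∀ s ∈ T, s⁻¹ ∈ T) : (TT R T).IsSymmetric := by
  intro u v
  rw [TT_apply, TT_apply, sum_inner, inner_sum, ← sum_inv_eq T hT (fun s => inner ℝ u (R.ρ s v))]
  exact Finset.sum_congr rfl (fun s _ => inner_rho_left R s u v)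

lemma B_TT (T : Finset (SO ι)) (hT : ∀ s ∈ T, s⁻¹ ∈ T) (M N : V) :
    B R W (TT R T M) N = B R W M (TT R T N) := by
  rw [TT_apply, TT_apply, map_sum, map_sum, LinearMap.sum_apply,
    ← sum_inv_eq T hT (fun s => B R W M (R.ρ s N))]
  exact Finset.sum_congr rfl (fun s _ => B_rho R W s M N)

lemma TT_inv (T : Finset (SO ι)) {v : V} (hv : v ∈ R.toLieRep.InvAll) :
    TT R T v = (T.card : ℝ) • v := by
  rw [TT_apply, Finset.sum_congr rfl (fun s _ => rho_eq_of_mem_InvAll R hv s), Finset.sum_const,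
    Nat.cast_smul_eq_nsmul]

lemma TT_orth (T : Finset (SO ι)) (hT : ∀ s ∈ T, s⁻¹ ∈ T) {u : V}
    (hu : u ∈ (R.toLieRep.InvAll)ᗮ) : TT R T u ∈ (R.toLieRep.InvAll)ᗮ := by
  rw [Submodule.mem_orthogonal] at hu ⊢
  intro v hv
  rw [← TT_symm R T hT v u, TT_inv R T hv, real_inner_smul_left, hu v hv, mul_zero]

lemma inner_TT (T : Finset (SO ι)) (v : V) :
    inner ℝ (TT R T v) v = T.card * ‖v‖ ^ 2 - (∑ s ∈ T, ‖R.ρ s v - v‖ ^ 2) / 2 := by
  rw [TT_apply, sum_inner]
  have h : ∀ s ∈ T, inner ℝ (R.ρ s v) v = ‖v‖ ^ 2 - ‖R.ρ s v - v‖ ^ 2 / 2 := by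
    intro s _
    rw [norm_sub_sq_real, R.norm_ρ]
    ring
  rw [Finset.sum_congr rfl h, Finset.sum_sub_distrib, Finset.sum_const, nsmul_eq_mul,
    Finset.sum_div]

variable [FiniteDimensional ℝ V]

lemma B_TT_le (T : Finset (SO ι)) (hT : ∀ s ∈ T, s⁻¹ ∈ T) {ε : ℝ} (hε : Gap T ε) {M : V}
    (hM : M ∈ (R.toLieRep.InvAll)ᗮ) :
    B R W (TT R T M) M ≤ (T.card - ε) * B R W M M := by
  set U := (R.toLieRep.InvAll)ᗮ with hU
  have hTU : ∀ u ∈ U, TT R T u ∈ U := fun u hu => TT_orth R T hT hu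
  have h := form_le ((TT R T).restrict hTU) ((TT_symm R T hT).restrict_invariant hTU) (T.card - ε)
    (fun v => by
      have h1 := hε V R v v.2
      have h2 := inner_TT R T (v : V)
      rw [Submodule.coe_inner, LinearMap.coe_restrict_apply, h2, Submodule.coe_norm]
      linarith)
    ((B R W).domRestrict₁₂ U U) (fun v => B_nonneg R W v) (fun u v => B_TT R W T hT u v) ⟨M, hM⟩
  exact h

/-- the average of the orbit is invariant -/
lemma avg_inv : (∫ x, R.ρ x W ∂haarSO ι) ∈ R.toLieRep.InvAll := by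
  refine mem_InvAll_of_rho R (fun g => ?_)
  have h1 : R.ρ g (∫ x, R.ρ x W ∂haarSO ι) = ∫ x, R.ρ g (R.ρ x W) ∂haarSO ι :=
    ((isom R g).toContinuousLinearMap.integral_comp_comm (int_of_cont (R.cont W))).symm
  rw [h1]
  simp only [← rho_mul]
  exact integral_mul_left_eq_self (fun x => R.ρ x W) g

lemma integral_F_orth {M : V} (hM : M ∈ (R.toLieRep.InvAll)ᗮ) :
    ∫ x, F R W M x ∂haarSO ι = 0 := by
  unfold F
  rw [integral_inner (int_of_cont (R.cont W))]
  exact Submodule.inner_left_of_mem_orthogonal (avg_inv R W) hM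

omit [FiniteDimensional ℝ V] in
lemma F_inv {M : V} (hM : M ∈ R.toLieRep.InvAll) (x : SO ι) : F R W M x = inner ℝ M W := by
  unfold F
  rw [inner_rho_right, rho_eq_of_mem_InvAll R hM]

theorem F_gap (T : Finset (SO ι)) (hT : ∀ s ∈ T, s⁻¹ ∈ T) {ε : ℝ} (hε : Gap T ε) (M : V)
    (h0 : ∫ x, F R W M x ∂haarSO ι = 0) :
    ∑ s ∈ T, ∫ x, F R W M (s * x) * F R W M x ∂haarSO ι ≤
      (T.card - ε) * ∫ x, F R W M x ^ 2 ∂haarSO ι := by
  obtain ⟨M₀, h₀, M₁, h₁, rfl⟩ := (R.toLieRep.InvAll).exists_add_mem_mem_orthogonal M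
  have e0 : ∀ x, F R W (M₀ + M₁) x = inner ℝ M₀ W + F R W M₁ x := by
    intro x; rw [F_add, F_inv R W h₀]
  have e1 : inner ℝ M₀ W = (0:ℝ) := by
    simp only [e0] at h0
    rw [integral_add (integrable_const _) (int_of_cont (F_cont R W M₁)), integral_F_orth R W h₁] at h0
    simpa using h0
  have e2 : ∀ x, F R W (M₀ + M₁) x = F R W M₁ x := by
    intro x; rw [e0, e1, zero_add]
  simp only [e2]
  have h := B_TT_le R W T hT hε h₁
  have e3 : B R W (TT R T M₁) M₁ = ∑ s ∈ T, ∫ x, F R W M₁ (s * x) * F R W M₁ x ∂haarSO ι := by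
    rw [TT_apply, map_sum, LinearMap.sum_apply, ← sum_inv_eq T hT (fun s => B R W (R.ρ s M₁) M₁)]
    refine Finset.sum_congr rfl (fun s _ => ?_)
    rw [B_apply]
    simp only [F_translate]
  rw [e3] at h
  refine h.trans (le_of_eq ?_)
  congr 1
  rw [B_apply]
  refine integral_congr_ae (Filter.Eventually.of_forall (fun x => ?_))
  simp only [sq]

end

theorem coef_gap (T : Finset (SO ι)) (hT : ∀ s ∈ T, s⁻¹ ∈ T) {ε : ℝ} (hε : Gap T ε)
    (f : SO ι → ℝ) (hf : IsCoef f) (h0 : ∫ x, f x ∂haarSO ι = 0) :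
    ∑ s ∈ T, ∫ x, f (s * x) * f x ∂haarSO ι ≤ (T.card - ε) * ∫ x, f x ^ 2 ∂haarSO ι := by
  obtain ⟨κ, _, _, R, u, w, h⟩ := hf
  have e : f = F R.toSORep (WithLp.toLp 2 w) (WithLp.toLp 2 u) := by
    funext x
    rw [h, F, MRep.toSORep_ρ, inner_eq]
  rw [e] at h0 ⊢
  exact F_gap _ _ T hT hε _ h0

end Pool.Agent.K3h61.SOF
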