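import Pool.Agent.K3h61.SOFGap

/-!
# The spectral gap on `L²(SO(ι))`
-/

set_option autoImplicit false

open Matrix MeasureTheory

namespace Pool.Agent.K3h61.SOF

open Pool.Agent.K3h92 Pool.Agent.K3h61.SOGen

variable {ι : Type} [Fintype ι] [DecidableEq ι]

variable (ι) in
/-- `L²(SO(ι))` -/
abbrev HL : Type := Lp ℝ 2 (haarSO ι)

lemma mp (s : SO ι) : MeasurePreserving (fun x : SO ι => s * x) (haarSO ι) (haarSO ι) :=
  measurePreserving_mul_left _ s

/-- translation -/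
noncomputable def U (s : SO ι) : HL ι →ₗᵢ[ℝ] HL ι :=
  Lp.compMeasurePreservingₗᵢ ℝ (fun x : SO ι => s * x) (mp s)

lemma U_coe (s : SO ι) (g : HL ι) : U s g =ᵐ[haarSO ι] fun x => g (s * x) :=
  Lp.coeFn_compMeasurePreserving g (mp s)

variable (ι) in
/-- the constant function -/
noncomputable def oneL : HL ι := (memLp_const (1:ℝ)).toLp (fun _ => (1:ℝ))

/-- the projection to the functions with integral zero -/
noncomputable def PL (g : HL ι) : HL ι := g - (inner ℝ (oneL ι) g : ℝ) • oneL ι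

/-- the quadratic form -/
noncomputable def Ψ (T : Finset (SO ι)) (ε : ℝ) (g : HL ι) : ℝ :=
  ∑ s ∈ T, inner ℝ (U s g) g - (T.card - ε) * ‖g‖ ^ 2

lemma Ψ_cont (T : Finset (SO ι)) (ε : ℝ) : Continuous (Ψ T ε) := by
  unfold Ψ
  refine Continuous.sub ?_ (by fun_prop)
  exact continuous_finsetSum _ (fun s _ => ((U s).continuous).inner continuous_id)

lemma PL_cont : Continuous (PL (ι := ι)) := by
  unfold PL
  fun_prop

lemma inner_toLp {f g : SO ι → ℝ} (hf : MemLp f 2 (haarSO ι)) (hg : MemLp g 2 (haarSO ι)) :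
    inner ℝ (hf.toLp f) (hg.toLp g) = ∫ x, f x * g x ∂haarSO ι := by
  rw [L2.inner_def]
  refine integral_congr_ae ?_
  filter_upwards [hf.coeFn_toLp, hg.coeFn_toLp] with x h1 h2
  rw [h1, h2]
  simp [mul_comm]

lemma memLp_translate {f : SO ι → ℝ} (hf : MemLp f 2 (haarSO ι)) (s : SO ι) :
    MemLp (fun x => f (s * x)) 2 (haarSO ι) := hf.comp_measurePreserving (mp s)

lemma U_toLp {f : SO ι → ℝ} (hf : MemLp f 2 (haarSO ι)) (s : SO ι) :
    U s (hf.toLp f) = (memLp_translate hf s).toLp (fun x => f (s * x)) := by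
  apply Lp.ext
  refine (U_coe s _).trans ?_
  refine Filter.EventuallyEq.trans ?_ (memLp_translate hf s).coeFn_toLp.symm
  exact (mp s).quasiMeasurePreserving.ae_eq_comp hf.coeFn_toLp

lemma Ψ_toLp (T : Finset (SO ι)) (ε : ℝ) {f : SO ι → ℝ} (hf : MemLp f 2 (haarSO ι)) :
    Ψ T ε (hf.toLp f) = ∑ s ∈ T, ∫ x, f (s * x) * f x ∂haarSO ι -
      (T.card - ε) * ∫ x, f x ^ 2 ∂haarSO ι := by
  unfold Ψ
  rw [← real_inner_self_eq_norm_sq, inner_toLp]
  congr 1
  · refine Finset.sum_congr rfl (fun s _ => ?_)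
    rw [U_toLp, inner_toLp]
  · simp only [sq]

lemma PL_toLp {f : SO ι → ℝ} (hf : MemLp f 2 (haarSO ι)) :
    PL (hf.toLp f) = (hf.sub (memLp_const (∫ x, f x ∂haarSO ι))).toLp
      (fun x => f x - ∫ x, f x ∂haarSO ι) := by
  unfold PL oneL
  rw [inner_toLp, ← MemLp.toLp_const_smul, ← MemLp.toLp_sub]
  simp only [one_mul]
  congr 1
  funext x
  simp

theorem l2_gap (T : Finset (SO ι)) (hT : ∀ s ∈ T, s⁻¹ ∈ T) {ε : ℝ} (hε : Gap T ε)
    (f : SO ι → ℝ) (hf : MemLp f 2 (haarSO ι)) (h0 : ∫ x, f x ∂haarSO ι = 0) :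
    ∑ s ∈ T, ∫ x, f (s * x) * f x ∂haarSO ι ≤ (T.card - ε) * ∫ x, f x ^ 2 ∂haarSO ι := by
  have hall : ∀ g : HL ι, Ψ T ε (PL g) ≤ 0 := by
    have hdense : Dense ((ContinuousMap.toLp 2 (haarSO ι) ℝ : C(SO ι, ℝ) →L[ℝ] HL ι) ''
        (coefAlg ι : Set C(SO ι, ℝ))) := by
      refine DenseRange.dense_image (ContinuousMap.toLp_denseRange ℝ (haarSO ι) ℝ (by simp))
        (ContinuousLinearMap.continuous _) ?_
      rw [dense_iff_closure_eq]
      have := coefAlg_dense (ι := ι)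
      rw [← Subalgebra.topologicalClosure_coe, this]
      rfl
    intro g
    refine hdense.induction (P := fun g => Ψ T ε (PL g) ≤ 0) ?_ (isClosed_le
      ((Ψ_cont T ε).comp PL_cont) continuous_const) g
    rintro _ ⟨u, hu, rfl⟩
    have hu1 : MemLp (u : SO ι → ℝ) 2 (haarSO ι) := by
      exact (Lp.memLp (ContinuousMap.toLp 2 (haarSO ι) ℝ u)).ae_eq (ContinuousMap.coeFn_toLp _ u)
    have e1 : (ContinuousMap.toLp 2 (haarSO ι) ℝ : C(SO ι, ℝ) →L[ℝ] HL ι) u = hu1.toLp u := by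
      apply Lp.ext
      exact (ContinuousMap.coeFn_toLp _ u).trans hu1.coeFn_toLp.symm
    rw [e1, PL_toLp, Ψ_toLp]
    have h1 := coef_gap T hT hε (fun x => u x - ∫ x, u x ∂haarSO ι) (by
      have := IsCoef.add (f := u) (g := fun _ => - ∫ x, u x ∂haarSO ι) hu (isCoef_const _)
      simpa only [sub_eq_add_neg] using this) (by
      rw [integral_sub (int_of_cont u.continuous) (integrable_const _)]
      simp)
    linarith
  have h1 := hall (hf.toLp f)
  rw [PL_toLp, Ψ_toLp] at h1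
  simp only [h0, sub_zero] at h1
  linarith

end Pool.Agent.K3h61.SOF
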