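import Pool.Agent.K3h92.Top

/-!
# Matrix representations of `SO(ι)` with their infinitesimal generators

Direct sums, tensor products, the trivial and the standard representation.
-/

set_option autoImplicit false

open Matrix

namespace Pool.Agent.K3h61.SOF

open Pool.Agent.K3h92

/-- An orthogonal matrix representation of `SO(ι)` with its infinitesimal generators. -/
structure MRep (ι κ : Type) [Fintype ι] [DecidableEq ι] [Fintype κ] [DecidableEq κ] where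
  ρ : SO ι →* Matrix κ κ ℝ
  orth : ∀ g, (ρ g)ᵀ * ρ g = 1
  A : ι → ι → Matrix κ κ ℝ
  anti : ∀ a b, A b a = -A a b
  skew : ∀ a b, (A a b)ᵀ = -A a b
  br : ∀ a b c d, A a b * A c d - A c d * A a b =
    (if b = c then A a d else 0) - (if a = c then A b d else 0) -
      (if b = d then A a c else 0) + (if a = d then A b c else 0)
  Ad : ∀ (g : SO ι) (a b : ι), ρ g * A a b =
    (∑ c, ∑ d, ((g : Matrix ι ι ℝ) c a * (g : Matrix ι ι ℝ) d b) • A c d) * ρ g
  deriv : ∀ (a b : ι) (hab : a ≠ b) (i j : κ),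
    HasDerivAt (fun t : ℝ => ρ (rot a b hab t) i j) (A a b i j) 0
  cont : ∀ i j, Continuous (fun g : SO ι => ρ g i j)

section toSORep

variable {ι κ : Type} [Fintype ι] [DecidableEq ι] [Fintype κ] [DecidableEq κ]

variable (κ) in
/-- Matrices as operators on Euclidean space. -/
noncomputable def L : Matrix κ κ ℝ →ₐ[ℝ] (EuclideanSpace ℝ κ →ₗ[ℝ] EuclideanSpace ℝ κ) :=
  AlgHom.ofLinearMap (Matrix.toEuclideanLin (𝕜 := ℝ) (m := κ) (n := κ)).toLinearMap
    (by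
      ext v i
      simp)
    (by
      intro M N
      ext v i
      simp [Matrix.toLpLin_apply])

lemma L_apply (M : Matrix κ κ ℝ) (v : EuclideanSpace ℝ κ) :
    L κ M v = WithLp.toLp 2 (M *ᵥ WithLp.ofLp v) := rfl

omit [DecidableEq κ] in
lemma inner_eq (u v : EuclideanSpace ℝ κ) :
    inner ℝ u v = WithLp.ofLp u ⬝ᵥ WithLp.ofLp v := by
  simp [PiLp.inner_apply, dotProduct, mul_comm]

lemma inner_L (M : Matrix κ κ ℝ) (u v : EuclideanSpace ℝ κ) :
    inner ℝ (L κ M u) v = inner ℝ u (L κ Mᵀ v) := by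
  rw [inner_eq, inner_eq, L_apply, L_apply]
  simp only
  rw [dotProduct_mulVec, vecMul_transpose]

/-- The associated orthogonal representation on Euclidean space. -/
noncomputable def MRep.toSORep (R : MRep ι κ) : SORep ι (EuclideanSpace ℝ κ) where
  A a b := L κ (R.A a b)
  anti a b := by rw [R.anti, map_neg]
  skew a b u v := by
    rw [inner_L, R.skew, map_neg, LinearMap.neg_apply, inner_neg_right]
  br a b c d := by
    rw [← map_mul, ← map_mul, ← map_sub, R.br]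
    simp only [map_add, map_sub]
    congr 1
    · congr 1
      · congr 1 <;> split_ifs <;> simp
      · split_ifs <;> simp
    · split_ifs <;> simp
  ρ := (L κ : Matrix κ κ ℝ →* _).comp R.ρ
  norm_ρ g v := by
    have h : ‖(L κ (R.ρ g)) v‖ ^ 2 = ‖v‖ ^ 2 := by
      rw [← real_inner_self_eq_norm_sq, ← real_inner_self_eq_norm_sq, inner_L]
      rw [← Module.End.mul_apply, ← map_mul, R.orth, map_one, Module.End.one_apply]
    exact (sq_eq_sq₀ (norm_nonneg _) (norm_nonneg _)).1 h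
  Ad g a b := by
    have h := congrArg (L κ) (R.Ad g a b)
    rw [map_mul, map_mul, map_sum] at h
    simp only [map_sum, map_smul] at h
    exact h
  deriv a b hab v := by
    have h : HasDerivAt (fun t : ℝ => R.ρ (rot a b hab t) *ᵥ WithLp.ofLp v)
        (R.A a b *ᵥ WithLp.ofLp v) 0 := by
      rw [hasDerivAt_pi]
      intro i
      simp only [Matrix.mulVec, dotProduct]
      exact HasDerivAt.fun_sum (fun j _ => (R.deriv a b hab i j).mul_const _)
    exact ((PiLp.continuousLinearEquiv 2 ℝ (fun _ : κ => ℝ)).symm.hasFDerivAt).comp_hasDerivAt 0 h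
  cont v := by
    have h : Continuous (fun g : SO ι => R.ρ g *ᵥ WithLp.ofLp v) := by
      refine continuous_pi (fun i => ?_)
      simp only [Matrix.mulVec, dotProduct]
      exact continuous_finsetSum _ (fun j _ => (R.cont i j).mul continuous_const)
    exact (PiLp.continuous_toLp 2 _).comp h

lemma MRep.toSORep_ρ (R : MRep ι κ) (g : SO ι) (v : EuclideanSpace ℝ κ) :
    R.toSORep.ρ g v = WithLp.toLp 2 (R.ρ g *ᵥ WithLp.ofLp v) := rfl

end toSORep

section constr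

variable {ι : Type} [Fintype ι] [DecidableEq ι] {κ₁ κ₂ : Type} [Fintype κ₁] [DecidableEq κ₁]
  [Fintype κ₂] [DecidableEq κ₂]

variable (ι) in
/-- the trivial representation -/
def MRep.triv : MRep ι Unit where
  ρ := 1
  orth g := by simp
  A a b := 0
  anti a b := by simp
  skew a b := by simp
  br a b c d := by simp
  Ad g a b := by simp
  deriv a b hab i j := by
    simpa using hasDerivAt_const (0:ℝ) (1 : ℝ)
  cont i j := by
    simpa using continuous_const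

omit [Fintype ι] in
lemma single_mul_single' (a b c d : ι) [Fintype ι] :
    Matrix.single a b (1:ℝ) * Matrix.single c d (1:ℝ) =
      if b = c then Matrix.single a d (1:ℝ) else 0 := by
  split_ifs with h
  · subst h; simp
  · simp [Matrix.single_mul_single_of_ne _ _ _ _ h]

lemma conj_single (g : Matrix ι ι ℝ) (a b i j : ι) :
    (g * Matrix.single a b (1:ℝ) * gᵀ) i j = g i a * g j b := by
  rw [Matrix.mul_apply]
  simp only [Matrix.transpose_apply]
  rw [Finset.sum_eq_single b]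
  · rw [Matrix.mul_single_apply_same, mul_one]
  · intro c _ hc
    rw [Matrix.mul_single_apply_of_ne _ _ _ _ _ hc, zero_mul]
  · simp

omit [Fintype ι] in
lemma sum_single (f : ι → ι → ℝ) (i j : ι) [Fintype ι] :
    ∑ c, ∑ d, f c d * Matrix.single c d (1:ℝ) i j = f i j := by
  rw [Finset.sum_eq_single i, Finset.sum_eq_single j]
  · simp
  · intro d _ hd
    simp [hd]
  · simp
  · intro c _ hc
    refine Finset.sum_eq_zero (fun d _ => ?_)
    simp [hc]
  · simp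

omit [Fintype ι] in
lemma sum_single' (f : ι → ι → ℝ) (i j : ι) [Fintype ι] :
    ∑ c, ∑ d, f c d * Matrix.single d c (1:ℝ) i j = f j i := by
  rw [Finset.sum_comm]
  exact sum_single (fun d c => f c d) i j

lemma std_conj (g : Matrix ι ι ℝ) (a b : ι) :
    ∑ c, ∑ d, (g c a * g d b) • (Matrix.single c d (1:ℝ) - Matrix.single d c 1) =
      g * (Matrix.single a b (1:ℝ) - Matrix.single b a 1) * gᵀ := by
  ext i j
  rw [mul_sub, sub_mul, Matrix.sub_apply, conj_single, conj_single]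
  simp only [Matrix.sum_apply, Matrix.smul_apply, Matrix.sub_apply, smul_eq_mul, mul_sub,
    Finset.sum_sub_distrib]
  rw [sum_single (fun c d => g c a * g d b), sum_single' (fun c d => g c a * g d b)]
  ring

variable (ι) in
/-- the standard representation -/
def MRep.std : MRep ι ι where
  ρ := (SO ι).subtype
  orth g := ((SO.mem_iff _).1 g.2).1
  A a b := Matrix.single a b 1 - Matrix.single b a 1
  anti a b := by simp
  skew a b := by simp
  br a b c d := by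
    simp only [sub_mul, mul_sub, single_mul_single', @eq_comm _ c b, @eq_comm _ c a,
      @eq_comm _ d a, @eq_comm _ d b]
    split_ifs <;> abel
  Ad g a b := by
    rw [std_conj]
    change (g : Matrix ι ι ℝ) * _ = _ * (g : Matrix ι ι ℝ)
    rw [mul_assoc _ _ (g : Matrix ι ι ℝ), ((SO.mem_iff _).1 g.2).1, mul_one]
  deriv a b hab i j := by
    have h1 : HasDerivAt (fun t : ℝ => (1 : Matrix ι ι ℝ) i j +
        (Real.cos t - 1) * (Matrix.single a a (1:ℝ) + Matrix.single b b 1 : Matrix ι ι ℝ) i j +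
        Real.sin t * (Matrix.single a b (1:ℝ) - Matrix.single b a 1 : Matrix ι ι ℝ) i j)
        (0 + (-Real.sin 0) * (Matrix.single a a (1:ℝ) + Matrix.single b b 1 : Matrix ι ι ℝ) i j +
          Real.cos 0 * (Matrix.single a b (1:ℝ) - Matrix.single b a 1 : Matrix ι ι ℝ) i j) 0 :=
      ((hasDerivAt_const _ _).add (((Real.hasDerivAt_cos 0).sub_const 1).mul_const _)).add
        ((Real.hasDerivAt_sin 0).mul_const _)
    rw [Real.sin_zero, Real.cos_zero] at h1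
    simp only [neg_zero, zero_mul, zero_add, one_mul] at h1
    exact h1
  cont i j := by
    exact (continuous_apply_apply i j).comp continuous_subtype_val

open scoped Kronecker

variable (κ₁ κ₂) in
/-- `M ↦ M ⊗ 1` -/
noncomputable def φ₁ : Matrix κ₁ κ₁ ℝ →ₐ[ℝ] Matrix (κ₁ × κ₂) (κ₁ × κ₂) ℝ :=
  AlgHom.ofLinearMap
    { toFun := fun M => M ⊗ₖ (1 : Matrix κ₂ κ₂ ℝ)
      map_add' := fun M N => Matrix.add_kronecker _ _ _
      map_smul' := fun r M => Matrix.smul_kronecker _ _ _ }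
    (by simp) (by intro M N; simp [← Matrix.mul_kronecker_mul])

variable (κ₁ κ₂) in
/-- `M ↦ 1 ⊗ M` -/
noncomputable def φ₂ : Matrix κ₂ κ₂ ℝ →ₐ[ℝ] Matrix (κ₁ × κ₂) (κ₁ × κ₂) ℝ :=
  AlgHom.ofLinearMap
    { toFun := fun M => (1 : Matrix κ₁ κ₁ ℝ) ⊗ₖ M
      map_add' := fun M N => Matrix.kronecker_add _ _ _
      map_smul' := fun r M => Matrix.kronecker_smul _ _ _ }
    (by simp) (by intro M N; simp [← Matrix.mul_kronecker_mul])

lemma φ₁_apply (M : Matrix κ₁ κ₁ ℝ) : φ₁ κ₁ κ₂ M = M ⊗ₖ (1 : Matrix κ₂ κ₂ ℝ) := rfl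

lemma φ₂_apply (M : Matrix κ₂ κ₂ ℝ) : φ₂ κ₁ κ₂ M = (1 : Matrix κ₁ κ₁ ℝ) ⊗ₖ M := rfl

lemma φ_mul (M : Matrix κ₁ κ₁ ℝ) (N : Matrix κ₂ κ₂ ℝ) :
    φ₁ κ₁ κ₂ M * φ₂ κ₁ κ₂ N = M ⊗ₖ N := by
  rw [φ₁_apply, φ₂_apply, ← Matrix.mul_kronecker_mul, mul_one, one_mul]

lemma φ_mul' (M : Matrix κ₁ κ₁ ℝ) (N : Matrix κ₂ κ₂ ℝ) :
    φ₂ κ₁ κ₂ N * φ₁ κ₁ κ₂ M = M ⊗ₖ N := by
  rw [φ₁_apply, φ₂_apply, ← Matrix.mul_kronecker_mul, mul_one, one_mul]

lemma φ_comm (M : Matrix κ₁ κ₁ ℝ) (N : Matrix κ₂ κ₂ ℝ) :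
    φ₂ κ₁ κ₂ N * φ₁ κ₁ κ₂ M = φ₁ κ₁ κ₂ M * φ₂ κ₁ κ₂ N := by
  rw [φ_mul, φ_mul']

lemma rot_zero {a b : ι} (hab : a ≠ b) : rot a b hab 0 = 1 :=
  Subtype.ext (rotMat_zero a b)

omit [Fintype κ₁] [DecidableEq κ₁] [Fintype κ₂] [DecidableEq κ₂] in
lemma kron_transpose (M : Matrix κ₁ κ₁ ℝ) (N : Matrix κ₂ κ₂ ℝ) : (M ⊗ₖ N)ᵀ = Mᵀ ⊗ₖ Nᵀ :=
  (Matrix.kroneckerMap_transpose _ _ _).symm

/-- the tensor product -/
noncomputable def MRep.tensor (R₁ : MRep ι κ₁) (R₂ : MRep ι κ₂) : MRep ι (κ₁ × κ₂) where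
  ρ := 
    { toFun := fun g => R₁.ρ g ⊗ₖ R₂.ρ g
      map_one' := by simp
      map_mul' := fun g h => by rw [map_mul, map_mul, Matrix.mul_kronecker_mul] }
  orth g := by
    change (R₁.ρ g ⊗ₖ R₂.ρ g)ᵀ * (R₁.ρ g ⊗ₖ R₂.ρ g) = 1
    rw [kron_transpose, ← Matrix.mul_kronecker_mul, R₁.orth, R₂.orth, Matrix.one_kronecker_one]
  A a b := φ₁ κ₁ κ₂ (R₁.A a b) + φ₂ κ₁ κ₂ (R₂.A a b)
  anti a b := by 
    rw [R₁.anti, R₂.anti, map_neg, map_neg]; abel
  skew a b := by 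
    rw [Matrix.transpose_add]
    have e1 : (φ₁ κ₁ κ₂ (R₁.A a b))ᵀ = φ₁ κ₁ κ₂ (R₁.A a b)ᵀ := by
      rw [φ₁_apply, kron_transpose, Matrix.transpose_one, φ₁_apply]
    have e2 : (φ₂ κ₁ κ₂ (R₂.A a b))ᵀ = φ₂ κ₁ κ₂ (R₂.A a b)ᵀ := by
      rw [φ₂_apply, kron_transpose, Matrix.transpose_one, φ₂_apply]
    rw [e1, e2, R₁.skew, R₂.skew, map_neg, map_neg]; abel
  br a b c d := by
    have e1 := congrArg (φ₁ κ₁ κ₂) (R₁.br a b c d)
    have e2 := congrArg (φ₂ κ₁ κ₂) (R₂.br a b c d)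
    have e3 : (φ₁ κ₁ κ₂ (R₁.A a b) + φ₂ κ₁ κ₂ (R₂.A a b)) *
        (φ₁ κ₁ κ₂ (R₁.A c d) + φ₂ κ₁ κ₂ (R₂.A c d)) -
        (φ₁ κ₁ κ₂ (R₁.A c d) + φ₂ κ₁ κ₂ (R₂.A c d)) *
        (φ₁ κ₁ κ₂ (R₁.A a b) + φ₂ κ₁ κ₂ (R₂.A a b)) =
        φ₁ κ₁ κ₂ (R₁.A a b * R₁.A c d - R₁.A c d * R₁.A a b) +
        φ₂ κ₁ κ₂ (R₂.A a b * R₂.A c d - R₂.A c d * R₂.A a b) := by
      simp only [map_sub, map_mul, mul_add, add_mul, φ_comm]
      abel
    rw [e3, R₁.br, R₂.br]
    split_ifs <;> simp only [map_add, map_sub, map_zero] <;> abel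
  Ad g a b := by
    have e1 := congrArg (φ₁ κ₁ κ₂) (R₁.Ad g a b)
    have e2 := congrArg (φ₂ κ₁ κ₂) (R₂.Ad g a b)
    change R₁.ρ g ⊗ₖ R₂.ρ g * _ = _ * (R₁.ρ g ⊗ₖ R₂.ρ g)
    rw [← φ_mul]
    simp only [map_mul, map_sum, map_smul] at e1 e2
    rw [mul_add, mul_assoc _ _ (φ₁ κ₁ κ₂ (R₁.A a b)), φ_comm, ← mul_assoc, e1, mul_assoc _ _ (φ₂ κ₁ κ₂ (R₂.A a b)),
      e2]
    simp only [smul_add, Finset.sum_add_distrib, add_mul, mul_assoc]
    congr 1
    rw [← mul_assoc, ← mul_assoc]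
    congr 1
    rw [Finset.mul_sum, Finset.sum_mul]
    refine Finset.sum_congr rfl (fun c _ => ?_)
    rw [Finset.mul_sum, Finset.sum_mul]
    refine Finset.sum_congr rfl (fun d _ => ?_)
    rw [mul_smul_comm, smul_mul_assoc, φ_comm]
  deriv a b hab i j := by
    obtain ⟨i₁, i₂⟩ := i
    obtain ⟨j₁, j₂⟩ := j
    have h := (R₁.deriv a b hab i₁ j₁).mul (R₂.deriv a b hab i₂ j₂)
    rw [rot_zero, map_one, map_one] at h
    exact h
  cont i j := by
    exact (R₁.cont i.1 j.1).mul (R₂.cont i.2 j.2)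

omit [Fintype κ₁] [DecidableEq κ₁] [Fintype κ₂] [DecidableEq κ₂] in
lemma fromBlocks_sub' (M M' : Matrix κ₁ κ₁ ℝ) (N N' : Matrix κ₂ κ₂ ℝ) :
    Matrix.fromBlocks M 0 0 N - Matrix.fromBlocks M' 0 0 N' =
      Matrix.fromBlocks (M - M') 0 0 (N - N') := by
  ext i j
  rcases i with i | i <;> rcases j with j | j <;> simp

/-- the direct sum -/
def MRep.sum (R₁ : MRep ι κ₁) (R₂ : MRep ι κ₂) : MRep ι (κ₁ ⊕ κ₂) where
  ρ := 
    { toFun := fun g => Matrix.fromBlocks (R₁.ρ g) 0 0 (R₂.ρ g)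
      map_one' := by simp
      map_mul' := fun g h => by simp [Matrix.fromBlocks_multiply] }
  orth g := by
    change (Matrix.fromBlocks (R₁.ρ g) 0 0 (R₂.ρ g))ᵀ * (Matrix.fromBlocks (R₁.ρ g) 0 0 (R₂.ρ g)) = 1
    rw [Matrix.fromBlocks_transpose, Matrix.fromBlocks_multiply, R₁.orth, R₂.orth]
    simp
  A a b := Matrix.fromBlocks (R₁.A a b) 0 0 (R₂.A a b)
  anti a b := by 
    rw [R₁.anti, R₂.anti, Matrix.fromBlocks_neg]; simp
  skew a b := by 
    rw [Matrix.fromBlocks_transpose, Matrix.fromBlocks_neg, R₁.skew, R₂.skew]; simp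
  br a b c d := by
    rw [Matrix.fromBlocks_multiply, Matrix.fromBlocks_multiply]
    simp only [Matrix.zero_mul, Matrix.mul_zero, add_zero, zero_add]
    rw [fromBlocks_sub', R₁.br, R₂.br]
    split_ifs <;> simp [fromBlocks_sub', Matrix.fromBlocks_add, Matrix.fromBlocks_neg]
  Ad g a b := by
    change Matrix.fromBlocks (R₁.ρ g) 0 0 (R₂.ρ g) * _ = _ * Matrix.fromBlocks (R₁.ρ g) 0 0 (R₂.ρ g)
    have e : ∑ c, ∑ d, ((g : Matrix ι ι ℝ) c a * (g : Matrix ι ι ℝ) d b) •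
        Matrix.fromBlocks (R₁.A c d) 0 0 (R₂.A c d) = Matrix.fromBlocks
        (∑ c, ∑ d, ((g : Matrix ι ι ℝ) c a * (g : Matrix ι ι ℝ) d b) • R₁.A c d) 0 0
        (∑ c, ∑ d, ((g : Matrix ι ι ℝ) c a * (g : Matrix ι ι ℝ) d b) • R₂.A c d) := by
      ext i j
      rcases i with i | i <;> rcases j with j | j <;> simp [Matrix.sum_apply]
    rw [e, Matrix.fromBlocks_multiply, Matrix.fromBlocks_multiply, R₁.Ad, R₂.Ad]
    simp
  deriv a b hab i j := by
    rcases i with i | i <;> rcases j with j | j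
    · exact R₁.deriv a b hab i j
    · exact hasDerivAt_const _ _
    · exact hasDerivAt_const _ _
    · exact R₂.deriv a b hab i j
  cont i j := by
    rcases i with i | i <;> rcases j with j | j
    · exact R₁.cont i j
    · exact continuous_const
    · exact continuous_const
    · exact R₂.cont i j

end constr

end Pool.Agent.K3h61.SOF
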