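import Pool.Agent.K3h61.SOFL2

/-!
# A finite set with a spectral gap generates a dense subgroup
-/

set_option autoImplicit false

open Matrix MeasureTheory

namespace Pool.Agent.K3h61.SOF

open Pool.Agent.K3h92 Pool.Agent.K3h61.SOGen

variable {ι : Type} [Fintype ι] [DecidableEq ι]

theorem const_of_inv (T : Finset (SO ι)) (hT : ∀ s ∈ T, s⁻¹ ∈ T) {ε : ℝ} (hε : Gap T ε)
    (h0 : 0 < ε) (f : SO ι → ℝ) (hf : Continuous f) (hinv : ∀ s ∈ T, ∀ x, f (s * x) = f x) :
    ∀ x y, f x = f y := by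
  set c := ∫ x, f x ∂haarSO ι with hc
  set g : SO ι → ℝ := fun x => f x - c with hg
  have hgc : Continuous g := hf.sub continuous_const
  have hg2 : MemLp g 2 (haarSO ι) := by
    have h1 : MemLp (ContinuousMap.toLp 2 (haarSO ι) ℝ (⟨g, hgc⟩ : C(SO ι, ℝ))) 2 (haarSO ι) :=
      Lp.memLp _
    exact h1.ae_eq (ContinuousMap.coeFn_toLp _ _)
  have hg0 : ∫ x, g x ∂haarSO ι = 0 := by
    simp only [hg]
    rw [integral_sub (int_of_cont hf) (integrable_const _)]
    simp [hc]
  have h1 := l2_gap T hT hε g hg2 hg0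
  have h2 : ∑ s ∈ T, ∫ x, g (s * x) * g x ∂haarSO ι = T.card * ∫ x, g x ^ 2 ∂haarSO ι := by
    rw [← nsmul_eq_mul, ← Finset.sum_const]
    refine Finset.sum_congr rfl (fun s hs => ?_)
    refine integral_congr_ae (Filter.Eventually.of_forall (fun x => ?_))
    simp only [hg, hinv s hs, sq]
  rw [h2] at h1
  have h3 : ∫ x, g x ^ 2 ∂haarSO ι = 0 := by
    have h4 : 0 ≤ ∫ x, g x ^ 2 ∂haarSO ι := integral_nonneg (fun x => sq_nonneg _)
    nlinarith
  have h5 : (fun x => g x ^ 2) =ᵐ[haarSO ι] 0 :=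
    (integral_eq_zero_iff_of_nonneg (fun x => sq_nonneg _) (int_of_cont (hgc.pow 2))).1 h3
  have h6 : (fun x => g x ^ 2) = 0 :=
    (Continuous.ae_eq_iff_eq (haarSO ι) (hgc.pow 2) continuous_const).1 h5
  have h7 : ∀ x, f x = c := by
    intro x
    have := congrFun h6 x
    simp only [Pi.zero_apply, hg] at this
    have := pow_eq_zero_iff (two_ne_zero) |>.1 this
    linarith
  intro x y
  rw [h7, h7]

theorem top_gen (T : Finset (SO ι)) (hT : ∀ s ∈ T, s⁻¹ ∈ T) {ε : ℝ} (hε : Gap T ε)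
    (h0 : 0 < ε) (g : SO ι) : g ∈ closure ((Subgroup.closure (T : Set (SO ι)) : Set (SO ι))) := by
  by_contra hg
  set Hc : Subgroup (SO ι) := (Subgroup.closure (T : Set (SO ι))).topologicalClosure with hHc
  have hgH : g ∉ (Hc : Set (SO ι)) := by
    rw [hHc, Subgroup.topologicalClosure_coe]; exact hg
  have hclosed : IsClosed (Hc : Set (SO ι)) := Subgroup.isClosed_topologicalClosure _
  have hcomp : IsCompact (Hc : Set (SO ι)) := hclosed.isCompact
  obtain ⟨φ, hφ0, hφ1, hφ⟩ := exists_continuous_zero_one_of_isClosed hclosed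
    (isClosed_singleton (x := g)) (by simpa using hgH)
  set f : SO ι → ℝ := fun x => sSup ((fun h => φ (h * x)) '' (Hc : Set (SO ι))) with hf
  have hfc : Continuous f := by
    refine IsCompact.continuous_sSup (f := fun x h => φ (h * x)) hcomp ?_
    exact φ.continuous.comp (continuous_snd.mul continuous_fst)
  have hinv : ∀ s ∈ T, ∀ x, f (s * x) = f x := by
    intro s hs x
    have hsH : s ∈ Hc := Subgroup.le_topologicalClosure _ (Subgroup.subset_closure hs)
    simp only [hf]
    congr 1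
    ext y
    constructor
    · rintro ⟨h, hh, rfl⟩
      exact ⟨h * s, mul_mem hh hsH, by simp only [mul_assoc]⟩
    · rintro ⟨h, hh, rfl⟩
      exact ⟨h * s⁻¹, mul_mem hh (inv_mem hsH), by
        simp only [mul_assoc]; rw [inv_mul_cancel_left]⟩
  have h1 := const_of_inv T hT hε h0 f hfc hinv 1 g
  have h2 : f 1 = 0 := by
    have : (fun h => φ (h * 1)) '' (Hc : Set (SO ι)) = {0} := by
      ext y
      constructor
      · rintro ⟨h, hh, rfl⟩
        simp only [mul_one, Set.mem_singleton_iff]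
        exact hφ0 hh
      · rintro rfl
        exact ⟨1, one_mem _, by simpa using hφ0 (one_mem Hc)⟩
    simp only [hf, this, csSup_singleton]
  have h3 : 1 ≤ f g := by
    have h4 : φ g = 1 := hφ1 rfl
    rw [← h4]
    refine le_csSup ⟨1, ?_⟩ ⟨1, one_mem _, by simp⟩
    rintro _ ⟨h, _, rfl⟩
    exact (hφ _).2
  rw [h2] at h1
  linarith

end Pool.Agent.K3h61.SOF
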