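import Pool.Agent.K3h61.SOFTop

/-!
# From finite-dimensional representations to the statement on `L²`
-/

set_option autoImplicit false

open Matrix MeasureTheory

namespace Pool.Agent.K3h61.SOF

open Pool.Agent.K3h92 Pool.Agent.K3h61.SOGen

section measure

variable {ι : Type} [Fintype ι] [DecidableEq ι]

variable (ι) in
/-- the embedding of `SO(ι)` in the space of functions of two variables -/
def emb (x : SO ι) : ι → ι → ℝ := (x : Matrix ι ι ℝ)

lemma emb_closed : Topology.IsClosedEmbedding (emb ι) := by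
  have h : IsClosed ((SO ι : Submonoid (Matrix ι ι ℝ)) : Set (Matrix ι ι ℝ)) := SO.isClosed
  exact h.isClosedEmbedding_subtypeVal

lemma emb_meas : MeasurableEmbedding (emb ι) := emb_closed.measurableEmbedding

lemma range_emb : Set.range (emb ι) =
    {x | (Matrix.of x).transpose * Matrix.of x = 1 ∧ (Matrix.of x).det = 1} := by
  ext x
  constructor
  · rintro ⟨g, rfl⟩
    exact (SO.mem_iff _).1 g.2
  · intro hx
    exact ⟨⟨Matrix.of x, (SO.mem_iff _).2 hx⟩, rfl⟩

lemma emb_mul (s x : SO ι) : emb ι (s * x) =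
    fun i j => ∑ l, (s : Matrix ι ι ℝ) i l * emb ι x l j := by
  funext i j
  change ((s : Matrix ι ι ℝ) * (x : Matrix ι ι ℝ)) i j = _
  rw [Matrix.mul_apply]
  rfl

lemma measure_eq (μ : Measure (ι → ι → ℝ)) [IsProbabilityMeasure μ]
    (h1 : μ {x | ¬ ((Matrix.of x).transpose * Matrix.of x = 1 ∧ (Matrix.of x).det = 1)} = 0)
    (h2 : ∀ g : Matrix ι ι ℝ, g.transpose * g = 1 → g.det = 1 →
      μ.map (fun x : ι → ι → ℝ => fun i j => ∑ l, g i l * x l j) = μ) :
    μ = (haarSO ι).map (emb ι) := by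
  have h3 : μ (Set.range (emb ι))ᶜ = 0 := by
    rw [range_emb]; exact h1
  have h4 : (μ.comap (emb ι)).map (emb ι) = μ := by
    rw [emb_meas.map_comap]
    exact Measure.restrict_eq_self_of_ae_mem (by rw [ae_iff]; exact h3)
  set ν := μ.comap (emb ι) with hν
  have i1 : IsProbabilityMeasure ν := by
    constructor
    have := congrArg (fun m => m Set.univ) h4
    simp only [measure_univ] at this
    rw [Measure.map_apply emb_meas.measurable MeasurableSet.univ, Set.preimage_univ] at this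
    exact this
  have i2 : Measure.IsMulLeftInvariant ν := by
    constructor
    intro g
    have hg := h2 g ((SO.mem_iff _).1 g.2).1 ((SO.mem_iff _).1 g.2).2
    have hm : Measurable (fun x : ι → ι → ℝ => fun i j => ∑ l, (g : Matrix ι ι ℝ) i l * x l j) := by
      refine measurable_pi_lambda _ (fun i => measurable_pi_lambda _ (fun j => ?_))
      refine Finset.measurable_sum _ (fun l _ => ?_)
      have h5 : Measurable (fun x : ι → ι → ℝ => x l j) :=
        (measurable_pi_apply j).comp (measurable_pi_apply l)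
      exact h5.const_mul _
    have e1 : (ν.map (fun x => g * x)).map (emb ι) = ν.map (emb ι) := by
      rw [Measure.map_map emb_meas.measurable (measurable_const_mul g)]
      have e2 : (emb ι) ∘ (fun x => g * x) =
          (fun x : ι → ι → ℝ => fun i j => ∑ l, (g : Matrix ι ι ℝ) i l * x l j) ∘ emb ι := by
        funext x; exact emb_mul g x
      rw [e2, ← Measure.map_map hm emb_meas.measurable, h4, hg]
    have e3 := congrArg (fun m => m.comap (emb ι)) e1
    simpa only [emb_meas.comap_map] using e3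
  rw [← haarSO_unique ν, h4]

/-- the statement for a finite set of elements of the group -/
theorem final_of_gap (T : Finset (SO ι)) (hT : ∀ s ∈ T, s⁻¹ ∈ T) {ε : ℝ} (hε : Gap T ε)
    (h0 : 0 < ε) :
    ∃ S : Finset (Matrix ι ι ℝ), S.card = T.card ∧
      (∀ s ∈ S, s.transpose * s = 1 ∧ s.det = 1) ∧
      (∀ s ∈ S, s.transpose ∈ S) ∧
      (∀ g : Matrix ι ι ℝ, g.transpose * g = 1 → g.det = 1 →
        g ∈ closure ((Submonoid.closure (S : Set (Matrix ι ι ℝ)) :
          Set (Matrix ι ι ℝ)))) ∧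
      ∀ μ : Measure (ι → ι → ℝ), IsProbabilityMeasure μ →
        μ {x | ¬ ((Matrix.of x).transpose * Matrix.of x = 1 ∧ (Matrix.of x).det = 1)} = 0 →
        (∀ g : Matrix ι ι ℝ, g.transpose * g = 1 → g.det = 1 →
          μ.map (fun x : ι → ι → ℝ => fun i j => ∑ l, g i l * x l j) = μ) →
        ∀ f : (ι → ι → ℝ) → ℝ, MemLp f 2 μ → ∫ x, f x ∂μ = 0 →
          ∑ s ∈ S, ∫ x, f (fun i j => ∑ l, s i l * x l j) * f x ∂μ
            ≤ ((T.card : ℝ) - ε) * ∫ x, f x ^ 2 ∂μ := by
  classical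
  refine ⟨T.map ⟨fun s : SO ι => (s : Matrix ι ι ℝ), Subtype.val_injective⟩,
    Finset.card_map _, ?_, ?_, ?_, ?_⟩
  · intro s hs
    obtain ⟨t, _, rfl⟩ := Finset.mem_map.1 hs
    exact (SO.mem_iff _).1 t.2
  · intro s hs
    obtain ⟨t, ht, rfl⟩ := Finset.mem_map.1 hs
    exact Finset.mem_map.2 ⟨t⁻¹, hT t ht, SO.coe_inv t⟩
  · intro g hg1 hg2
    have h1 := top_gen T hT hε h0 ⟨g, (SO.mem_iff _).2 ⟨hg1, hg2⟩⟩
    have h2 : ((Subgroup.closure (T : Set (SO ι)) : Set (SO ι))) =
        (Submonoid.closure (T : Set (SO ι)) : Set (SO ι)) := by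
      have h3 : (Subgroup.closure (T : Set (SO ι))).toSubmonoid =
          Submonoid.closure (T : Set (SO ι)) := by
        rw [Subgroup.closure_toSubmonoid]
        congr 1
        refine Set.union_eq_self_of_subset_right ?_
        intro s hs
        have := hT _ (Set.mem_inv.1 hs)
        rwa [inv_inv] at this
      rw [← h3]; rfl
    rw [h2] at h1
    have h4 := mem_closure_image (f := fun x : SO ι => (x : Matrix ι ι ℝ))
      continuous_subtype_val.continuousAt h1
    refine closure_mono ?_ h4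
    rintro _ ⟨x, hx, rfl⟩
    have h5 : ((x : SO ι) : Matrix ι ι ℝ) ∈ (Submonoid.closure (T : Set (SO ι))).map (SO ι).subtype :=
      ⟨x, hx, rfl⟩
    rw [MonoidHom.map_mclosure] at h5
    refine Submonoid.closure_mono ?_ h5
    rintro _ ⟨y, hy, rfl⟩
    exact Finset.mem_coe.2 (Finset.mem_map.2 ⟨y, hy, rfl⟩)
  · intro μ hμ h1 h2 f hf hf0
    have hμe := measure_eq μ h1 h2
    have hf' : MemLp (f ∘ emb ι) 2 (haarSO ι) := by
      rw [hμe] at hf
      exact (emb_meas.memLp_map_measure_iff).1 hf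
    have e : ∀ g : (ι → ι → ℝ) → ℝ, ∫ x, g x ∂μ = ∫ x, g (emb ι x) ∂haarSO ι := by
      intro g
      rw [hμe, emb_meas.integral_map]
    rw [e] at hf0
    have h3 := l2_gap T hT hε (f ∘ emb ι) hf' hf0
    rw [Finset.sum_map, e]
    refine le_trans (le_of_eq ?_) h3
    refine Finset.sum_congr rfl (fun s _ => ?_)
    rw [e]
    refine integral_congr_ae (Filter.Eventually.of_forall (fun x => ?_))
    simp only [Function.comp_apply, emb_mul]
    rfl

end measure

/-- the symmetric elements of `SO(n)`, `n ≥ 3`, form an infinite set -/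
lemma infinite_symm {n : ℕ} (hn : 3 ≤ n) : {g : SO (Fin n) | g⁻¹ = g}.Infinite := by
  set a : Fin n := ⟨0, by omega⟩ with ha
  set b : Fin n := ⟨1, by omega⟩ with hb
  set c : Fin n := ⟨2, by omega⟩ with hc
  have hab : a ≠ b := by simp [ha, hb]
  have hac : a ≠ c := by simp [ha, hc]
  have hbc : b ≠ c := by simp [hb, hc]
  have hr : ∀ (a b : Fin n) (h : a ≠ b) (t : ℝ), (rot a b h t)⁻¹ = rot a b h (-t) := by
    intro a b h t
    apply Subtype.ext
    rw [SO.coe_inv]
    exact rotMat_transpose a b t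
  have hD : (rot a b hab Real.pi)⁻¹ = rot a b hab Real.pi := by
    rw [hr]
    apply Subtype.ext
    change rotMat a b (-Real.pi) = rotMat a b Real.pi
    unfold rotMat
    simp
  set φ : ℝ → SO (Fin n) := fun t => rot a c hac t * rot a b hab Real.pi * (rot a c hac t)⁻¹ with hφ
  have hφs : ∀ t, (φ t)⁻¹ = φ t := by
    intro t
    simp only [hφ, _root_.mul_inv_rev, inv_inv, hD, mul_assoc]
  have hφa : ∀ t, ((φ t : SO (Fin n)) : Matrix (Fin n) (Fin n) ℝ) a a = 1 - 2 * Real.cos t ^ 2 := by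
    intro t
    have e1 : ((φ t : SO (Fin n)) : Matrix (Fin n) (Fin n) ℝ) =
        rotMat a c t * (rotMat a b Real.pi * (rotMat a c (-t) * 1)) := by
      simp only [hφ, hr]
      rw [mul_assoc, mul_one]
      rfl
    have e2 : (rotMat a c (-t) * 1 : Matrix (Fin n) (Fin n) ℝ) a a = Real.cos t := by
      rw [rot_mul_apply hac, if_pos rfl, Matrix.one_apply_eq, Matrix.one_apply_ne hac.symm,
        Real.cos_neg]
      ring
    have e3 : (rotMat a c (-t) * 1 : Matrix (Fin n) (Fin n) ℝ) c a = Real.sin t := by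
      rw [rot_mul_apply hac, if_neg hac.symm, if_pos rfl, Matrix.one_apply_eq,
        Matrix.one_apply_ne hac.symm, Real.sin_neg]
      ring
    rw [e1, rot_mul_apply hac, if_pos rfl, rot_mul_apply hab, if_pos rfl, rot_mul_apply hab,
      if_neg hac.symm, if_neg hbc.symm, e2, e3, Real.cos_pi, Real.sin_pi]
    linear_combination Real.sin_sq_add_cos_sq t
  have hinj : Set.InjOn φ (Set.Icc 0 1) := by
    intro s hs t ht hst
    have h1 := hφa s
    rw [hst, hφa t] at h1
    have hs0 : 0 < Real.cos s := Real.cos_pos_of_mem_Ioo ⟨by linarith [hs.1, Real.pi_gt_three], by linarith [hs.2, Real.pi_gt_three]⟩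
    have ht0 : 0 < Real.cos t := Real.cos_pos_of_mem_Ioo ⟨by linarith [ht.1, Real.pi_gt_three], by linarith [ht.2, Real.pi_gt_three]⟩
    have h2 : Real.cos s = Real.cos t := by nlinarith
    exact Real.injOn_cos ⟨hs.1, by linarith [hs.2, Real.pi_gt_three]⟩ ⟨ht.1, by linarith [ht.2, Real.pi_gt_three]⟩ h2
  have h3 : (φ '' (Set.Icc 0 1)).Infinite := (Set.infinite_image_iff hinj).2 (Set.Icc_infinite (by norm_num))
  refine h3.mono ?_
  rintro _ ⟨t, _, rfl⟩
  exact hφs t

theorem final_of_kaz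
    (h : ∃ (K : ℕ) (c : ℝ), 0 < c ∧ ∀ n : ℕ, 3 ≤ n → ∃ S : Fin K → SO (Fin n), Kaz (Fin n) S c) :
  ∃ ε : ℝ, 0 < ε ∧ ∃ k : ℕ, 0 < k ∧ ∀ n : ℕ, 3 ≤ n →
    ∃ S : Finset (Matrix (Fin n) (Fin n) ℝ), S.card = k ∧
      (∀ s ∈ S, s.transpose * s = 1 ∧ s.det = 1) ∧
      (∀ s ∈ S, s.transpose ∈ S) ∧
      (∀ g : Matrix (Fin n) (Fin n) ℝ, g.transpose * g = 1 → g.det = 1 →
        g ∈ closure ((Submonoid.closure (S : Set (Matrix (Fin n) (Fin n) ℝ)) :
          Set (Matrix (Fin n) (Fin n) ℝ)))) ∧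
      ∀ μ : Measure (Fin n → Fin n → ℝ), IsProbabilityMeasure μ →
        μ {x | ¬ ((Matrix.of x).transpose * Matrix.of x = 1 ∧ (Matrix.of x).det = 1)} = 0 →
        (∀ g : Matrix (Fin n) (Fin n) ℝ, g.transpose * g = 1 → g.det = 1 →
          μ.map (fun x : Fin n → Fin n → ℝ => fun i j => ∑ l, g i l * x l j) = μ) →
        ∀ f : (Fin n → Fin n → ℝ) → ℝ, MemLp f 2 μ → ∫ x, f x ∂μ = 0 →
          ∑ s ∈ S, ∫ x, f (fun i j => ∑ l, s i l * x l j) * f x ∂μ
            ≤ ((k : ℝ) - ε) * ∫ x, f x ^ 2 ∂μ := by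
  classical
  obtain ⟨K, c, hc, h⟩ := h
  refine ⟨c / (2 * (K + 1)), by positivity, 2 * K + 1, by omega, fun n hn => ?_⟩
  obtain ⟨S, hS⟩ := h n hn
  set A : Finset (SO (Fin n)) := Finset.univ.image S ∪ Finset.univ.image (fun j => (S j)⁻¹) with hA
  have hAc : A.card ≤ 2 * K := by
    refine (Finset.card_union_le _ _).trans ?_
    have h1 : (Finset.univ.image S).card ≤ K := by
      simpa using Finset.card_image_le (s := (Finset.univ : Finset (Fin K))) (f := S)
    have h2 : (Finset.univ.image (fun j => (S j)⁻¹)).card ≤ K := by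
      simpa using Finset.card_image_le (s := (Finset.univ : Finset (Fin K))) (f := fun j => (S j)⁻¹)
    omega
  obtain ⟨P, hP1, hP2⟩ := ((infinite_symm hn).sdiff A.finite_toSet).exists_subset_card_eq (2 * K + 1 - A.card)
  have hdisj : Disjoint A P := by
    rw [Finset.disjoint_left]
    intro x hx hx'
    exact (hP1 hx').2 hx
  set T := A ∪ P with hTdef
  have hTc : T.card = 2 * K + 1 := by
    rw [hTdef, Finset.card_union_of_disjoint hdisj, hP2]; omega
  have hT : ∀ s ∈ T, s⁻¹ ∈ T := by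
    intro s hs
    rcases Finset.mem_union.1 hs with hs | hs
    · refine Finset.mem_union_left _ ?_
      rcases Finset.mem_union.1 hs with hs | hs
      · obtain ⟨j, _, rfl⟩ := Finset.mem_image.1 hs
        exact Finset.mem_union_right _ (Finset.mem_image.2 ⟨j, Finset.mem_univ _, rfl⟩)
      · obtain ⟨j, _, rfl⟩ := Finset.mem_image.1 hs
        exact Finset.mem_union_left _ (Finset.mem_image.2 ⟨j, Finset.mem_univ _, (inv_inv _).symm⟩)
    · have h1 : s⁻¹ = s := (hP1 hs).1
      rw [h1]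
      exact Finset.mem_union_right _ hs
  have hgap : Gap T (c / (2 * (K + 1))) := by
    intro V _ _ _ R v hv
    have h1 := hS V R v hv
    have h2 : ∀ j : Fin K, ‖R.ρ (S j) v - v‖ ^ 2 ≤ ∑ s ∈ T, ‖R.ρ s v - v‖ ^ 2 := by
      intro j
      refine Finset.single_le_sum (f := fun s => ‖R.ρ s v - v‖ ^ 2) (fun s _ => sq_nonneg _) ?_
      exact Finset.mem_union_left _ (Finset.mem_union_left _ (Finset.mem_image.2 ⟨j, Finset.mem_univ _, rfl⟩))
    have h3 : ∑ j, ‖R.ρ (S j) v - v‖ ^ 2 ≤ K * ∑ s ∈ T, ‖R.ρ s v - v‖ ^ 2 := by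
      refine (Finset.sum_le_sum (fun j _ => h2 j)).trans ?_
      simp
    have h4 : 0 ≤ ∑ s ∈ T, ‖R.ρ s v - v‖ ^ 2 := Finset.sum_nonneg (fun s _ => sq_nonneg _)
    have h5 : c * ‖v‖ ^ 2 ≤ (K + 1) * ∑ s ∈ T, ‖R.ρ s v - v‖ ^ 2 := by linarith
    have h6 : 2 * (c / (2 * ((K:ℝ) + 1))) = c / (K + 1) := by field_simp
    rw [h6, div_mul_eq_mul_div, div_le_iff₀ (by positivity)]
    linarith
  have h7 := final_of_gap T hT hgap (by positivity)
  rw [hTc] at h7
  exact h7

end Pool.Agent.K3h61.SOF
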